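import Pool.Agent.T6.H15.MZ.Power

/-!
# Atypical special subvarieties and points with very few classes
-/

set_option autoImplicit false

open MvPolynomial

namespace Pool.Agent.T6.H15.MZ

open Pool.Agent.T6.H15.ZP

section Defs

variable (R : ℂ → ℂ → Prop) (G : Set ℂ)

/-- `W` is a special subvariety of `S`. -/
def Special {ι : Type} (S W : Set (ι → ℂ)) : Prop :=
  IsVar W ∧ W ⊆ S ∧ ∀ W', IsVar W' → W ⊆ W' → W' ⊆ S → gd R G W' = gd R G W → W' = W

/-- the codimension in the domain of `W` is less than that of `S` -/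
def Atyp {ι : Type} (S W : Set (ι → ℂ)) : Prop := gd R G W + dim S < gd R G S + dim W

/-- Only finitely many atypical special subvarieties are maximal. -/
def FinMax {ι : Type} (S : Set (ι → ℂ)) : Prop :=
  {W | (Special R G S W ∧ Atyp R G S W) ∧
    ∀ W', Special R G S W' → Atyp R G S W' → W ⊆ W' → W' = W}.Finite

/-- For infinitely many `n` the points of excess at least `ε n` are not dense. -/
def Strong (ε : ℝ) : Prop :=
  ∀ m : ℕ, ∃ n, m ≤ n ∧ ∀ V : Set (Fin n → ℂ), IsVar V → gd R G V = n →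
    ∃ f, f ∉ idealOf V ∧ ∀ x ∈ V, (ncl R G x : ℝ) + dim V + ε * n ≤ n → eval x f = 0

end Defs

variable {R : ℂ → ℂ → Prop} {G : Set ℂ}

/-- The points of excess at least `t` are dense. -/
def Dns (R : ℂ → ℂ → Prop) (G : Set ℂ) {ι : Type} (V : Set (ι → ℂ)) (r t : ℕ) : Prop :=
  ∀ f, f ∉ idealOf V → ∃ x ∈ V, ncl R G x + dim V + t ≤ r ∧ eval x f ≠ 0

theorem not_dns_of_strong (hR : Corr R G) {ε : ℝ} (hε : 0 ≤ ε) (H : Strong R G ε) {ι : Type}
    [Fintype ι] (hn : ε * Fintype.card ι < 1) {V : Set (ι → ℂ)} (hV : IsVar V)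
    (hgen : ∃ v ∈ V, Ind R G v Finset.univ) : ¬ Dns R G V (Fintype.card ι) 1 := by
  classical
  intro hd
  obtain ⟨x0, hx0, hxi⟩ := hgen
  let p : ι → Prop := fun i => ∃ a, ∀ x ∈ V, x i = a
  have hpc : ∀ i, p i → ∀ x ∈ V, x i = x0 i := by
    rintro i ⟨a, ha⟩ x hx
    rw [ha x hx, ha x0 hx0]
  let c : {i // p i} → ℂ := fun i => x0 i
  set V' : Set ({i // ¬ p i} → ℂ) := img (fun k : {i // ¬ p i} => (k : ι)) V with hV'
  have hglue : ∀ x ∈ V, (fun i => if h : p i then c ⟨i, h⟩ else x i) = x := by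
    intro x hx
    funext i
    by_cases h : p i
    · rw [dif_pos h]
      exact (hpc i h x hx).symm
    · rw [dif_neg h]
  have hvar : IsVar V' := by
    refine ⟨irred_img hV.irred, fun y hy => ?_⟩
    have h1 : (fun i => if h : p i then c ⟨i, h⟩ else y ⟨i, h⟩) ∈ V := by
      apply hV.closed
      intro f hf
      set fc : MvPolynomial {i // ¬ p i} ℂ := aeval (fun i => if h : p i then
        (C (c ⟨i, h⟩) : MvPolynomial {i // ¬ p i} ℂ) else MvPolynomial.X ⟨i, h⟩) f with hfc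
      have h2 : ∀ z : {i // ¬ p i} → ℂ, eval z fc =
          eval (fun i => if h : p i then c ⟨i, h⟩ else z ⟨i, h⟩) f := by
        intro z
        rw [hfc, ← aeval_eq_eval, ← aeval_eq_eval]
        have h3 : (aeval z).comp (aeval (fun i => if h : p i then
            (C (c ⟨i, h⟩) : MvPolynomial {i // ¬ p i} ℂ) else MvPolynomial.X ⟨i, h⟩)) =
            (aeval (fun i => if h : p i then c ⟨i, h⟩ else z ⟨i, h⟩) :
              MvPolynomial ι ℂ →ₐ[ℂ] ℂ) := by
          ext i
          by_cases h : p i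
          · simp [h]
          · simp [h]
        exact DFunLike.congr_fun h3 f
      rw [← h2]
      apply hy
      rw [mem_idealOf]
      rintro _ ⟨x, hx, rfl⟩
      rw [h2]
      have h4 := hglue x hx
      have h5 : (fun i => if h : p i then c ⟨i, h⟩ else x i) =
        (fun i => if h : p i then c ⟨i, h⟩ else (fun k : {i // ¬ p i} => x (k : ι)) ⟨i, h⟩) := rfl
      rw [← h5, h4]
      exact mem_idealOf.1 hf x hx
    refine ⟨_, h1, ?_⟩
    funext k
    dsimp only
    rw [dif_neg k.2]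
  have hbase : Base R G c V' := by
    refine ⟨hxi.comp Subtype.val_injective, hvar, ?_, ⟨_, ⟨x0, hx0, rfl⟩,
      hxi.comp Subtype.val_injective⟩, ?_⟩
    · intro k a
      by_contra hcon
      push Not at hcon
      exact k.2 ⟨a, fun x hx => hcon _ ⟨x, hx, rfl⟩⟩
    · intro f hf
      rw [hV', mem_idealOf_img] at hf
      obtain ⟨x, hx, h1, h2⟩ := hd _ hf
      rw [eval_rename] at h2
      refine ⟨fun k : {i // ¬ p i} => x (k : ι), ⟨x, hx, rfl⟩, ?_, h2⟩
      have h3 : ncl R G (Sum.elim c (fun k : {i // ¬ p i} => x (k : ι))) ≤ ncl R G x := by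
        have h4 : Sum.elim c (fun k : {i // ¬ p i} => x (k : ι)) =
            fun j => x (Sum.elim (fun i : {i // p i} => (i : ι))
              (fun k : {i // ¬ p i} => (k : ι)) j) := by
          funext j
          rcases j with j | j
          · exact (hpc j j.2 x hx).symm
          · rfl
        rw [h4]
        exact ncl_comp_le hR.toRel x _
      have h5 : dim V' ≤ dim V := dim_img_le hV.irred
      have h6 := Fintype.card_subtype_compl p
      have h7 := Fintype.card_subtype_le p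
      omega
  set h := Fintype.card {i // ¬ p i} with hhdef
  set e := Fintype.card {i // p i} with hedef
  have hcard : e + h = Fintype.card ι := by
    have h6 := Fintype.card_subtype_compl p
    have h7 := Fintype.card_subtype_le p
    omega
  have hh : 0 < h := by
    rw [Nat.pos_iff_ne_zero]
    intro h0
    obtain ⟨x, hx, h1, -⟩ := hd 1 (not_mem_of_eval hx0 (by simp))
    have h2 : x = x0 := by
      funext i
      by_cases hi : p i
      · exact hpc i hi x hx
      · have : IsEmpty {i // ¬ p i} := Fintype.card_eq_zero_iff.1 h0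
        exact this.elim ⟨i, hi⟩
    rw [h2, ncl_of_ind_univ hR.toRel hxi] at h1
    omega
  have hεh : ε * h < 1 := by
    refine lt_of_le_of_lt ?_ hn
    apply mul_le_mul_of_nonneg_left _ hε
    have : h ≤ Fintype.card ι := by omega
    exact_mod_cast this
  obtain ⟨K, hK⟩ := exists_nat_ge (ε * (e + h) / (1 - ε * h))
  rw [div_le_iff₀ (by linarith)] at hK
  obtain ⟨N, hN, HN⟩ := H (e + K * h)
  set k := (N - e) / h with hk
  set j := (N - e) % h with hj
  have hkj : N = e + k * h + j := by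
    have h1 := Nat.div_add_mod (N - e) h
    rw [← hk, ← hj] at h1
    have h2 : e ≤ N := by omega
    rw [mul_comm h k] at h1
    omega
  have hjh : j < h := Nat.mod_lt _ hh
  have hKk : K ≤ k := by
    rw [hk, Nat.le_div_iff_mul_le hh]
    omega
  obtain ⟨σ, _, β, W, hW⟩ := exists_isPow hR hbase k
  have hcardσ : Fintype.card (σ ⊕ Fin j) = N := by
    rw [Fintype.card_sum, Fintype.card_fin, hW.card, hkj]
  let E : Fin N ≃ σ ⊕ Fin j := (Fintype.equivFinOfCardEq hcardσ).symm
  set U : Set (σ ⊕ Fin j → ℂ) := prodSet W Set.univ with hU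
  have hUv : IsVar U := hW.var.prod isVar_univ
  obtain ⟨u, hu, hui⟩ := pad_generic (κ := Fin j) hR hW.generic
  have hgd : gd R G (img E U) = N := by
    apply le_antisymm
    · apply gd_le (X := img E U) ⟨fun k => u (E k), ⟨u, hu, rfl⟩⟩
      intro x _
      have := ncl_le hR.toRel x
      rwa [Fintype.card_fin] at this
    · have h1 : ncl R G (fun k => u (E k)) = N := by
        rw [ncl_equiv E hR.toRel u, ncl_of_ind_univ hR.toRel hui, hcardσ]
      have h2 : ncl R G (fun k => u (E k)) ≤ gd R G (img E U) := ncl_le_gd hR.toRel ⟨u, hu, rfl⟩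
      omega
  obtain ⟨f, hf, hfv⟩ := HN (img E U) (isVar_img E hUv) hgd
  rw [mem_idealOf_img] at hf
  obtain ⟨w, hw, h1, h2⟩ := pad_dense (κ := Fin j) hR hW.var hW.dense _ hf
  apply h2
  rw [eval_rename]
  apply hfv _ ⟨w, hw, rfl⟩
  rw [ncl_equiv E hR.toRel w, dim_img_equiv E hUv]
  rw [hcardσ] at h1
  have h3 : ((ncl R G w + dim (prodSet W (Set.univ : Set (Fin j → ℂ))) + k : ℕ) : ℝ) ≤ N := by
    exact_mod_cast h1
  push_cast at h3
  have h4 : ε * N ≤ k := by
    rw [hkj]
    push_cast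
    have h5 : (K : ℝ) ≤ k := by exact_mod_cast hKk
    have h6 : (j : ℝ) ≤ h := by exact_mod_cast hjh.le
    have h7 : ε * j ≤ ε * h := mul_le_mul_of_nonneg_left h6 hε
    nlinarith
  linarith

/-- The points of excess at least one are not dense on any subvariety. -/
theorem not_dns (hR : Corr R G) {ε : ℝ} (hε : 0 ≤ ε) (H : Strong R G ε) {ι : Type}
    [Fintype ι] (hn : ε * Fintype.card ι < 1) {V : Set (ι → ℂ)} (hV : IsVar V) :
    ¬ Dns R G V (gd R G V) 1 := by
  classical
  intro hd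
  obtain ⟨x0, h0⟩ := exists_gen' hR hV
  obtain ⟨T, -, hT, hTc, hTn⟩ :=
    exists_transversal hR.toRel (ind_empty (R := R) (G := G) x0)
  set X : Set (T → ℂ) := img (fun i : T => (i : ι)) V with hX
  have hcard : Fintype.card T = gd R G V := by
    rw [Fintype.card_coe, hTn, h0.ncl_eq hR.toRel]
  refine not_dns_of_strong hR hε H (ι := T) ?_ (isVar_zcl (irred_img hV.irred))
    (V := zcl X) ?_ ?_
  · refine lt_of_le_of_lt ?_ hn
    apply mul_le_mul_of_nonneg_left _ hε
    have h1 := Finset.card_le_univ T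
    rw [← Fintype.card_coe] at h1
    exact_mod_cast h1
  · refine ⟨_, subset_zcl X ⟨x0, h0.mem, rfl⟩, ?_⟩
    constructor
    · intro i _
      exact hT.1 i i.2
    · intro i _ j _ hij
      exact Subtype.ext (hT.2 i i.2 j j.2 hij)
  · intro f hf
    rw [idealOf_zcl, hX, mem_idealOf_img] at hf
    obtain ⟨x, hx, h1, h2⟩ := hd _ hf
    rw [eval_rename] at h2
    refine ⟨fun i : T => x (i : ι), subset_zcl X ⟨x, hx, rfl⟩, ?_, h2⟩
    rw [dim_zcl, hcard]
    have h3 := ncl_comp_le hR.toRel x (fun i : T => (i : ι))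
    have h4 : dim X ≤ dim V := dim_img_le hV.irred
    omega

section Max

variable {ι : Type} [Fintype ι]

theorem eq_of_subset_of_dim {X Y : Set (ι → ℂ)} (hX : IsVar X) (hY : IsVar Y) (h : X ⊆ Y)
    (hd : dim Y ≤ dim X) : Y = X := by
  apply Set.Subset.antisymm _ h
  apply hX.subset_of_ideal
  intro f hf
  by_contra hf'
  have := dim_lt hX.irred hY.irred (idealOf_mono h) hf hf'
  omega

theorem exists_special (hR : Corr R G) {S Z : Set (ι → ℂ)} (hS : IsVar S) (hZ : IsVar Z)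
    (hZS : Z ⊆ S) : ∃ W, Special R G S W ∧ Z ⊆ W ∧ gd R G W = gd R G Z := by
  classical
  let Q : ℕ → Prop := fun d => ∃ W, IsVar W ∧ Z ⊆ W ∧ W ⊆ S ∧ gd R G W = gd R G Z ∧ dim W = d
  have hQ : Q (dim Z) := ⟨Z, hZ, subset_rfl, hZS, rfl, rfl⟩
  have hb : ∀ d, Q d → d ≤ dim S := by
    rintro d ⟨W, hW, -, hWS, -, rfl⟩
    exact dim_mono_set hW.irred hS.irred hWS
  obtain ⟨W, hW, hZW, hWS, hg, hd⟩ := Nat.findGreatest_spec (hb _ hQ) hQ
  refine ⟨W, ⟨hW, hWS, fun W' hW' h1 h2 h3 => ?_⟩, hZW, hg⟩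
  apply eq_of_subset_of_dim hW hW' h1
  have h4 : Q (dim W') := ⟨W', hW', hZW.trans h1, h2, h3.trans hg, rfl⟩
  have h5 := Nat.le_findGreatest (hb _ h4) h4
  omega

/-- the points of excess at least one -/
def Bad (R : ℂ → ℂ → Prop) (G : Set ℂ) (S : Set (ι → ℂ)) : Set (ι → ℂ) :=
  {x | x ∈ S ∧ ncl R G x + dim S + 1 ≤ gd R G S}

theorem ideal_bad_le (hR : Corr R G) {S W : Set (ι → ℂ)} (hW : Special R G S W)
    (ha : Atyp R G S W) : idealOf (Bad R G S) ≤ idealOf W := by
  intro f hf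
  by_contra hf'
  obtain ⟨x, hx, h1, h2⟩ := exists_point_ncl hR hW.1 hf'
  apply h2
  apply mem_idealOf.1 hf
  refine ⟨hW.2.1 hx, ?_⟩
  unfold Atyp at ha
  omega

theorem finMax_of_not_dns (hR : Corr R G)
    (H : ∀ Z : Set (ι → ℂ), IsVar Z → ¬ Dns R G Z (gd R G Z) 1) {S : Set (ι → ℂ)} (hS : IsVar S) :
    FinMax R G S := by
  classical
  set U := Bad R G S with hU
  have hvan : vanishingIdeal ℂ U = idealOf U := by
    ext p
    rw [mem_vanishingIdeal_iff, mem_idealOf]
    simp only [aeval_eq_eval]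
  have hfin : (idealOf U).minimalPrimes.Finite :=
    Ideal.finite_minimalPrimes_of_isNoetherianRing _ _
  let piece : Ideal (MvPolynomial ι ℂ) → Set (ι → ℂ) := fun P => {x | x ∈ U ∧ ∀ p ∈ P, eval x p = 0}
  have hpiece : ∀ P ∈ (idealOf U).minimalPrimes, idealOf (piece P) = P := by
    intro P hP
    apply le_antisymm
    · intro p hp
      by_contra hpP
      rw [← hvan] at hP
      obtain ⟨z, hz, h1, h2⟩ := Helper834.EC.minprime_pt U P hP p hpP
      rw [mem_idealOf] at hp
      apply h2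
      rw [aeval_eq_eval]
      exact hp z ⟨hz, fun q hq => by rw [← aeval_eq_eval]; exact h1 q hq⟩
    · intro p hp
      rw [mem_idealOf]
      exact fun x hx => hx.2 p hp
  have hirr : ∀ P ∈ (idealOf U).minimalPrimes, Irred (piece P) := by
    intro P hP
    unfold Irred
    rw [hpiece P hP]
    exact hP.1.1
  -- the components are atypical special
  have hcomp : ∀ P ∈ (idealOf U).minimalPrimes,
      Special R G S (zcl (piece P)) ∧ Atyp R G S (zcl (piece P)) := by
    intro P hP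
    have hZ : IsVar (zcl (piece P)) := isVar_zcl (hirr P hP)
    set Z := zcl (piece P) with hZdef
    have hIZ : idealOf Z = P := by rw [hZdef, idealOf_zcl, hpiece P hP]
    have hZS : Z ⊆ S := by
      apply hS.subset_of_ideal
      rw [hIZ]
      refine le_trans ?_ hP.1.2
      exact idealOf_mono fun x hx => hx.1
    by_cases hc : gd R G Z + dim S + 1 ≤ gd R G S + dim Z
    · obtain ⟨W, hW, hZW, hg⟩ := exists_special hR hS hZ hZS
      have hdim := dim_mono_set hZ.irred hW.1.irred hZW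
      have ha : Atyp R G S W := by
        unfold Atyp
        omega
      have h1 := ideal_bad_le hR hW ha
      have h2 : idealOf W ≤ P := by
        rw [← hIZ]
        exact idealOf_mono hZW
      have h3 : P ≤ idealOf W := hP.2 ⟨hW.1.irred, h1⟩ h2
      have h4 : W = Z := by
        apply Set.Subset.antisymm _ hZW
        apply hZ.subset_of_ideal
        rw [hIZ]
        exact h3
      rw [← h4]
      exact ⟨hW, ha⟩
    · exfalso
      refine H Z hZ fun f hf => ?_
      rw [hZdef, idealOf_zcl] at hf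
      obtain ⟨x, hx, hfx⟩ := exists_of_not_mem hf
      refine ⟨x, subset_zcl _ hx, ?_, hfx⟩
      have h1 := hx.1.2
      omega
  refine (hfin.image fun P => zcl (piece P)).subset ?_
  rintro W ⟨⟨hW, ha⟩, hmax⟩
  have hp : (idealOf W).IsPrime := hW.1.irred
  obtain ⟨P, hP, hPW⟩ := Ideal.exists_minimalPrimes_le (ideal_bad_le hR hW ha)
  obtain ⟨h1, h2⟩ := hcomp P hP
  refine ⟨P, hP, ?_⟩
  apply hmax _ h1 h2
  apply h1.1.subset_of_ideal
  rw [idealOf_zcl, hpiece P hP]
  exact hPW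

theorem finMax_of_strong (hR : Corr R G) {ε : ℝ} (hε : 0 ≤ ε) (H : Strong R G ε)
    (hn : ε * Fintype.card ι < 1) {S : Set (ι → ℂ)} (hS : IsVar S) : FinMax R G S :=
  finMax_of_not_dns hR (fun _ hZ => not_dns hR hε H hn hZ) hS

theorem exists_maximal (S : Set (ι → ℂ)) (hS : IsVar S) {W : Set (ι → ℂ)}
    (hW : Special R G S W) (ha : Atyp R G S W) : ∃ W0, (Special R G S W0 ∧ Atyp R G S W0) ∧
      (∀ W', Special R G S W' → Atyp R G S W' → W0 ⊆ W' → W' = W0) ∧ W ⊆ W0 := by
  classical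
  let Q : ℕ → Prop := fun d => ∃ W0, Special R G S W0 ∧ Atyp R G S W0 ∧ W ⊆ W0 ∧ dim W0 = d
  have hQ : Q (dim W) := ⟨W, hW, ha, subset_rfl, rfl⟩
  have hb : ∀ d, Q d → d ≤ dim S := by
    rintro d ⟨W0, hW0, -, -, rfl⟩
    exact dim_mono_set hW0.1.irred hS.irred hW0.2.1
  obtain ⟨W0, hW0, ha0, hWW, hd⟩ := Nat.findGreatest_spec (hb _ hQ) hQ
  refine ⟨W0, ⟨hW0, ha0⟩, fun W' hW' ha' h1 => ?_, hWW⟩
  apply eq_of_subset_of_dim hW0.1 hW'.1 h1
  have h4 : Q (dim W') := ⟨W', hW', ha', hWW.trans h1, rfl⟩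
  have h5 := Nat.le_findGreatest (hb _ h4) h4
  omega

/-- Only finitely many maximal atypical special subvarieties are not contained in a given hypersurface
which does not contain `S`. -/
def FinOff (R : ℂ → ℂ → Prop) (G : Set ℂ) (S : Set (ι → ℂ)) : Prop :=
  ∃ f, f ∉ idealOf S ∧ {W | ((Special R G S W ∧ Atyp R G S W) ∧
    ∀ W', Special R G S W' → Atyp R G S W' → W ⊆ W' → W' = W) ∧ f ∉ idealOf W}.Finite

theorem finOff_of_finMax {S : Set (ι → ℂ)} (hS : IsVar S) (H : FinMax R G S) :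
    FinOff R G S := by
  refine ⟨1, fun h => ?_, H.subset fun W hW => hW.1⟩
  obtain ⟨x, hx⟩ := hS.nonempty
  have := mem_idealOf.1 h x hx
  simp at this

theorem not_dense_of_finOff (hR : Corr R G) {S : Set (ι → ℂ)} (hS : IsVar S)
    (H : FinOff R G S) : ∃ f, f ∉ idealOf S ∧ ∀ x ∈ Bad R G S, eval x f = 0 := by
  classical
  obtain ⟨f0, hf0, H⟩ := H
  have hmem : ∀ W : Set (ι → ℂ), Special R G S W ∧ Atyp R G S W →
      ∃ f, f ∈ idealOf W ∧ f ∉ idealOf S := by
    rintro W ⟨hW, ha⟩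
    by_contra hcon
    push Not at hcon
    have h1 : S ⊆ W := hW.1.subset_of_ideal hcon
    have h2 : W = S := Set.Subset.antisymm hW.2.1 h1
    rw [h2] at ha
    unfold Atyp at ha
    omega
  choose! g hg hg' using hmem
  have hp : (idealOf S).IsPrime := hS.irred
  refine ⟨f0 * ∏ W ∈ H.toFinset, g W, ?_, ?_⟩
  · intro h
    rcases hp.mem_or_mem h with h | h
    · exact hf0 h
    · obtain ⟨W, hW, h1⟩ := (hp.prod_mem_iff).1 h
      rw [Set.Finite.mem_toFinset] at hW
      exact hg' W hW.1.1 h1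
  · rintro x ⟨hx, hb⟩
    by_cases hfx : eval x f0 = 0
    · rw [map_mul, hfx, zero_mul]
    obtain ⟨W, hW, hxW, hgW⟩ := exists_special hR hS (isVar_singleton x)
      (Set.singleton_subset_iff.2 hx)
    rw [gd_singleton] at hgW
    have ha : Atyp R G S W := by
      unfold Atyp
      omega
    obtain ⟨W0, h1, h2, h3⟩ := exists_maximal S hS hW ha
    have hxW0 : x ∈ W0 := h3 (hxW rfl)
    rw [map_mul, map_prod]
    refine mul_eq_zero_of_right _ (Finset.prod_eq_zero (i := W0) ?_ ?_)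
    · rw [Set.Finite.mem_toFinset]
      exact ⟨⟨h1, h2⟩, not_mem_of_eval hxW0 hfx⟩
    · exact mem_idealOf.1 (hg W0 h1) x hxW0

end Max

/-- The points of excess at least `t` are not dense. -/
def ND (R : ℂ → ℂ → Prop) (G : Set ℂ) (n : ℕ) (t : ℝ) : Prop :=
  ∀ V : Set (Fin n → ℂ), IsVar V → gd R G V = n →
    ∃ f, f ∉ idealOf V ∧ ∀ x ∈ V, (ncl R G x : ℝ) + dim V + t ≤ n → eval x f = 0

theorem ND.mono {n : ℕ} {s t : ℝ} (h : ND R G n s) (hst : s ≤ t) : ND R G n t := by
  intro V hV hg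
  obtain ⟨f, hf, h1⟩ := h V hV hg
  exact ⟨f, hf, fun x hx hle => h1 x hx (by linarith)⟩

theorem finMax_of_ND (hR : Corr R G) {ε : ℝ} (hε : 0 < ε)
    (H : ∀ m : ℕ, ∃ n, m ≤ n ∧ ND R G n (ε * n)) {n : ℕ} (hn : ε * n < 1)
    {S : Set (Fin n → ℂ)} (hS : IsVar S) : FinMax R G S :=
  finMax_of_strong hR hε.le H (by rwa [Fintype.card_fin]) hS

/-- **Main theorem.** -/
theorem main (hR : Corr R G) (φ : ℕ → ℕ)
    (hφ : Filter.Tendsto (fun n : ℕ => (φ n : ℝ) / n) Filter.atTop (nhds 0))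
    (hφ1 : ∀ n, 1 ≤ φ n) :
    List.TFAE [
      ∀ (n : ℕ) (S : Set (Fin n → ℂ)), IsVar S → FinMax R G S,
      ∀ (n : ℕ) (S : Set (Fin n → ℂ)), IsVar S → FinOff R G S,
      ∀ n : ℕ, ND R G n 1,
      ∀ m : ℕ, ∃ n, m ≤ n ∧ ND R G n (φ n),
      ∀ ε : ℝ, 0 < ε → ∀ m : ℕ, ∃ n, m ≤ n ∧ ND R G n (ε * n)] := by
  tfae_have 1 → 2 := fun H n S hS => finOff_of_finMax hS (H n S hS)
  tfae_have 2 → 3 := by
    intro H n V hV hg
    obtain ⟨f, hf, hfv⟩ := not_dense_of_finOff hR hV (H n V hV)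
    refine ⟨f, hf, fun x hx hle => hfv x ⟨hx, ?_⟩⟩
    rw [hg]
    exact_mod_cast hle
  tfae_have 3 → 4 := fun H m => ⟨m, le_rfl, (H m).mono (by exact_mod_cast hφ1 m)⟩
  tfae_have 4 → 5 := by
    intro H ε hε m
    obtain ⟨m0, hm0⟩ := Filter.eventually_atTop.1 (hφ.eventually_lt_const hε)
    obtain ⟨n, hn, h⟩ := H (max m (max m0 1))
    refine ⟨n, (le_max_left _ _).trans hn, h.mono ?_⟩
    have h1 := hm0 n ((le_max_left _ _).trans ((le_max_right _ _).trans hn))
    have h2 : 0 < n := (le_max_right _ _).trans ((le_max_right _ _).trans hn)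
    have h3 : (0 : ℝ) < n := by exact_mod_cast h2
    rw [div_lt_iff₀ h3] at h1
    exact h1.le
  tfae_have 5 → 1 := by
    intro H n S hS
    have hn : (0 : ℝ) < (n : ℝ) + 1 := by positivity
    refine finMax_of_ND hR (ε := 1 / (n + 1)) (by positivity) (H _ (by positivity)) ?_ hS
    rw [div_mul_eq_mul_div, one_mul, div_lt_one hn]
    linarith
  tfae_finish

end Pool.Agent.T6.H15.MZ
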