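import Mathlib

/-!
# Numbers of classes of coordinates
-/

set_option autoImplicit false

namespace Pool.Agent.T6.H15.MZ

/-- The number of `R`-classes of the coordinates of `x` which are not in `G`. -/
noncomputable def ncl (R : ℂ → ℂ → Prop) (G : Set ℂ) {ι : Type} (x : ι → ℂ) : ℕ :=
  Set.ncard {C : Set ι | ∃ i, x i ∉ G ∧ C = {j | R (x i) (x j)}}

/-- `R` is an equivalence relation and `G` a union of classes. -/
structure Rel (R : ℂ → ℂ → Prop) (G : Set ℂ) : Prop where
  equiv : Equivalence R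
  sat : ∀ x y, x ∈ G → R x y → y ∈ G

section

variable {R : ℂ → ℂ → Prop} {G : Set ℂ} {ι κ : Type}

/-- The coordinates in `T` are not in `G` and pairwise not equivalent. -/
def Ind (R : ℂ → ℂ → Prop) (G : Set ℂ) (x : ι → ℂ) (T : Finset ι) : Prop :=
  (∀ i ∈ T, x i ∉ G) ∧ ∀ i ∈ T, ∀ j ∈ T, R (x i) (x j) → i = j

/-- All coordinates are in `G` or equivalent to one in `T`. -/
def Cov (R : ℂ → ℂ → Prop) (G : Set ℂ) (x : ι → ℂ) (T : Finset ι) : Prop :=
  ∀ i, x i ∉ G → ∃ t ∈ T, R (x t) (x i)

theorem card_le_ncl [Finite ι] (hR : Rel R G) {x : ι → ℂ} {T : Finset ι} (hT : Ind R G x T) :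
    T.card ≤ ncl R G x := by
  classical
  let f : ι → Set ι := fun i => {j | R (x i) (x j)}
  have hinj : Set.InjOn f T := by
    intro i hi j hj hij
    have h1 : j ∈ f i := by
      rw [hij]
      exact hR.equiv.refl _
    exact hT.2 i hi j hj h1
  rw [← Finset.card_image_of_injOn hinj, ← Set.ncard_coe_finset]
  apply Set.ncard_le_ncard _ (Set.toFinite _)
  intro C hC
  rw [Finset.coe_image] at hC
  obtain ⟨i, hi, rfl⟩ := hC
  exact ⟨i, hT.1 i hi, rfl⟩

theorem ncl_le_card (hR : Rel R G) {x : ι → ℂ} {T : Finset ι} (hT : Cov R G x T) :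
    ncl R G x ≤ T.card := by
  classical
  let f : ι → Set ι := fun i => {j | R (x i) (x j)}
  have h1 : {C : Set ι | ∃ i, x i ∉ G ∧ C = {j | R (x i) (x j)}} ⊆ (T.image f : Finset (Set ι)) := by
    rintro _ ⟨i, hi, rfl⟩
    obtain ⟨t, ht, hti⟩ := hT i hi
    rw [Finset.coe_image]
    refine ⟨t, ht, ?_⟩
    ext j
    exact ⟨fun h => hR.equiv.trans (hR.equiv.symm hti) h, fun h => hR.equiv.trans hti h⟩
  refine (Set.ncard_le_ncard h1 (Finset.finite_toSet _)).trans ?_
  rw [Set.ncard_coe_finset]
  exact Finset.card_image_le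

theorem exists_transversal [Fintype ι] (hR : Rel R G) {x : ι → ℂ} {M : Finset ι}
    (hM : Ind R G x M) : ∃ T, M ⊆ T ∧ Ind R G x T ∧ Cov R G x T ∧ T.card = ncl R G x := by
  classical
  obtain ⟨T, hT, hmax⟩ := Finset.exists_max_image
    ((Finset.univ : Finset (Finset ι)).filter fun T => M ⊆ T ∧ Ind R G x T) Finset.card
    ⟨M, by simp [hM]⟩
  rw [Finset.mem_filter] at hT
  obtain ⟨-, hMT, hTi⟩ := hT
  have hcov : Cov R G x T := by
    intro i hi
    by_contra hcon
    push Not at hcon
    have hiT : i ∉ T := fun h => hcon i h (hR.equiv.refl _)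
    have h1 : Ind R G x (insert i T) := by
      constructor
      · intro j hj
        rcases Finset.mem_insert.1 hj with rfl | hj
        · exact hi
        · exact hTi.1 j hj
      · intro j hj k hk hjk
        rcases Finset.mem_insert.1 hj with hj | hj <;> rcases Finset.mem_insert.1 hk with hk | hk
        · rw [hj, hk]
        · rw [hj] at hjk
          exact absurd (hR.equiv.symm hjk) (hcon k hk)
        · rw [hk] at hjk
          exact absurd hjk (hcon j hj)
        · exact hTi.2 j hj k hk hjk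
    have h2 := hmax (insert i T) (by
      rw [Finset.mem_filter]
      exact ⟨Finset.mem_univ _, hMT.trans (Finset.subset_insert _ _), h1⟩)
    rw [Finset.card_insert_of_notMem hiT] at h2
    omega
  exact ⟨T, hMT, hTi, hcov, le_antisymm (card_le_ncl hR hTi) (ncl_le_card hR hcov)⟩

theorem ind_empty (x : ι → ℂ) : Ind R G x ∅ := ⟨by simp, by simp⟩

theorem ncl_le [Fintype ι] (hR : Rel R G) (x : ι → ℂ) : ncl R G x ≤ Fintype.card ι := by
  obtain ⟨T, -, -, -, hT⟩ := exists_transversal hR (ind_empty (R := R) (G := G) x)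
  rw [← hT]
  exact Finset.card_le_univ T

theorem ind_univ_of_ncl [Fintype ι] (hR : Rel R G) {x : ι → ℂ}
    (h : Fintype.card ι ≤ ncl R G x) : Ind R G x Finset.univ := by
  obtain ⟨T, -, hT, -, hc⟩ := exists_transversal hR (ind_empty (R := R) (G := G) x)
  have h1 : T = Finset.univ := by
    apply Finset.eq_univ_of_card
    apply le_antisymm (Finset.card_le_univ T)
    rw [hc]
    exact h
  rwa [h1] at hT

theorem ncl_of_ind_univ [Fintype ι] (hR : Rel R G) {x : ι → ℂ} (h : Ind R G x Finset.univ) :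
    ncl R G x = Fintype.card ι := le_antisymm (ncl_le hR x) (by
  have := card_le_ncl hR h
  rwa [Finset.card_univ] at this)

theorem ncl_comp_le [Fintype ι] [Fintype κ] (hR : Rel R G) (x : ι → ℂ) (f : κ → ι) :
    ncl R G (fun k => x (f k)) ≤ ncl R G x := by
  classical
  obtain ⟨T, -, hT, -, hc⟩ :=
    exists_transversal hR (ind_empty (R := R) (G := G) (fun k => x (f k)))
  rw [← hc]
  have hinj : Set.InjOn f T := by
    intro i hi j hj hij
    refine hT.2 i hi j hj ?_
    show R (x (f i)) (x (f j))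
    rw [hij]
    exact hR.equiv.refl _
  rw [← Finset.card_image_of_injOn hinj]
  apply card_le_ncl hR
  constructor
  · intro i hi
    obtain ⟨k, hk, rfl⟩ := Finset.mem_image.1 hi
    exact hT.1 k hk
  · intro i hi j hj hij
    obtain ⟨k, hk, rfl⟩ := Finset.mem_image.1 hi
    obtain ⟨l, hl, rfl⟩ := Finset.mem_image.1 hj
    rw [hT.2 k hk l hl hij]

/-- Comparison of two points. -/
theorem ncl_add_card_le [Fintype ι] (hR : Rel R G) {x y : ι → ℂ}
    (h1 : ∀ i j, R (x i) (x j) → R (y i) (y j)) (h2 : ∀ i, x i ∈ G → y i ∈ G) {K : Finset ι}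
    (hK : Ind R G x K) (hy : ∀ i ∈ K, y i ∈ G) : ncl R G y + K.card ≤ ncl R G x := by
  classical
  obtain ⟨T, -, hT, -, hc⟩ := exists_transversal hR (ind_empty (R := R) (G := G) y)
  have hdis : Disjoint T K := by
    rw [Finset.disjoint_left]
    intro i hi hi'
    exact hT.1 i hi (hy i hi')
  rw [← hc, ← Finset.card_union_of_disjoint hdis]
  apply card_le_ncl hR
  constructor
  · intro i hi
    rcases Finset.mem_union.1 hi with hi | hi
    · exact fun h => hT.1 i hi (h2 i h)
    · exact hK.1 i hi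
  · intro i hi j hj hij
    rcases Finset.mem_union.1 hi with hi | hi <;> rcases Finset.mem_union.1 hj with hj | hj
    · exact hT.2 i hi j hj (h1 i j hij)
    · exact absurd (hR.sat _ _ (hy j hj) (hR.equiv.symm (h1 i j hij))) (hT.1 i hi)
    · exact absurd (hR.sat _ _ (hy i hi) (h1 i j hij)) (hT.1 j hj)
    · exact hK.2 i hi j hj hij

/-- Products over common constant coordinates `c`. -/
theorem ncl_elim_le {μ : Type} [Fintype ι] [Fintype κ] [Fintype μ] (hR : Rel R G) {w : ι → ℂ}
    {v : κ → ℂ} {c : μ → ℂ} {β : μ → ι} (hβ : ∀ m, w (β m) = c m)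
    (hc : Ind R G c Finset.univ) :
    ncl R G (Sum.elim w v) + Fintype.card μ ≤ ncl R G w + ncl R G (Sum.elim c v) := by
  classical
  obtain ⟨T, hMT, hT, hTc, hTn⟩ := exists_transversal (x := Sum.elim c v)
    (M := (Finset.univ : Finset μ).map Function.Embedding.inl) hR (by
      constructor
      · intro i hi
        obtain ⟨m, hm, rfl⟩ := Finset.mem_map.1 hi
        exact hc.1 m hm
      · intro i hi j hj hij
        obtain ⟨m, hm, rfl⟩ := Finset.mem_map.1 hi
        obtain ⟨k, hk, rfl⟩ := Finset.mem_map.1 hj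
        rw [hc.2 m hm k hk hij])
  obtain ⟨U, -, hU, hUc, hUn⟩ := exists_transversal hR (ind_empty (R := R) (G := G) w)
  have hl : T.toLeft = Finset.univ := by
    ext m
    simp only [Finset.mem_toLeft, Finset.mem_univ, iff_true]
    exact hMT (Finset.mem_map.2 ⟨m, Finset.mem_univ m, rfl⟩)
  have hcard : Fintype.card μ + T.toRight.card = T.card := by
    rw [← Finset.card_toLeft_add_card_toRight (u := T), hl, Finset.card_univ]
  have h1 : ncl R G (Sum.elim w v) ≤
      (U.disjSum T.toRight).card := by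
    apply ncl_le_card hR
    rintro (i | k) hi
    · obtain ⟨t, ht, h2⟩ := hUc i hi
      exact ⟨Sum.inl t, by simpa using ht, h2⟩
    · obtain ⟨t, ht, h2⟩ := hTc (Sum.inr k) hi
      rcases t with m | k'
      · have h3 : R (w (β m)) (v k) := by
          rw [hβ]
          exact h2
        have h4 : w (β m) ∉ G := by
          rw [hβ]
          exact hc.1 m (Finset.mem_univ m)
        obtain ⟨u, hu, h5⟩ := hUc (β m) h4
        exact ⟨Sum.inl u, by simpa using hu, hR.equiv.trans h5 h3⟩
      · exact ⟨Sum.inr k', by simpa using ht, h2⟩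
  rw [Finset.card_disjSum] at h1
  omega

theorem ind_elim (hR : Rel R G) [Fintype ι] [Fintype κ] {w : ι → ℂ} {v : κ → ℂ}
    (hw : Ind R G w Finset.univ) (hv : Ind R G v Finset.univ) (h : ∀ i k, ¬ R (w i) (v k)) :
    Ind R G (Sum.elim w v) Finset.univ := by
  constructor
  · rintro (i | k) -
    · exact hw.1 i (Finset.mem_univ i)
    · exact hv.1 k (Finset.mem_univ k)
  · rintro (i | k) - (j | l) - hij
    · rw [hw.2 i (Finset.mem_univ i) j (Finset.mem_univ j) hij]
    · exact absurd hij (h i l)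
    · exact absurd (hR.equiv.symm hij) (h j k)
    · rw [hv.2 k (Finset.mem_univ k) l (Finset.mem_univ l) hij]

theorem Ind.comp [Fintype ι] [Fintype κ] {x : ι → ℂ} (h : Ind R G x Finset.univ) {f : κ → ι}
    (hf : Function.Injective f) : Ind R G (fun k => x (f k)) Finset.univ :=
  ⟨fun k _ => h.1 (f k) (Finset.mem_univ _), fun k _ l _ hkl =>
    hf (h.2 (f k) (Finset.mem_univ _) (f l) (Finset.mem_univ _) hkl)⟩

end

end Pool.Agent.T6.H15.MZ
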