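import Pool.Agent.T6.H15.MZ.Var
import Pool.Agent.T6.H15.MZ.Count

/-!
# Very general points and classes of coordinates
-/

set_option autoImplicit false

open MvPolynomial

namespace Pool.Agent.T6.H15.MZ

open Pool.Agent.T6.H15.ZP

/-- The equivalence relation `R` is a countable union of curves, finite over the first coordinate, `G` is
an infinite countable union of classes. -/
structure Corr (R : ℂ → ℂ → Prop) (G : Set ℂ) : Prop extends Rel R G where
  inf : G.Infinite
  count : G.Countable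
  cls : ∀ x, {y | R x y}.Countable
  poly : ∃ P : ℕ → Polynomial (Polynomial ℂ), (∀ m, (P m).Monic) ∧
    ∀ x y, R x y ↔ ∃ m, (P m).evalEval x y = 0

/-- The maximum of the numbers of classes at the points of `X`. -/
noncomputable def gd (R : ℂ → ℂ → Prop) (G : Set ℂ) {ι : Type} (X : Set (ι → ℂ)) : ℕ :=
  sSup (ncl R G '' X)

/-- The polynomial `P(x_i, x_j)`. -/
noncomputable def toMv {ι : Type} (P : Polynomial (Polynomial ℂ)) (i j : ι) : MvPolynomial ι ℂ :=
  P.eval₂ (Polynomial.aeval (MvPolynomial.X i : MvPolynomial ι ℂ)).toRingHom (MvPolynomial.X j)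

theorem eval_toMv {ι : Type} (P : Polynomial (Polynomial ℂ)) (i j : ι) (x : ι → ℂ) :
    eval x (toMv P i j) = P.evalEval (x i) (x j) := by
  unfold toMv
  rw [Polynomial.hom_eval₂, eval_X, ← Polynomial.eval₂_evalRingHom]
  congr 1
  ext a
  · simp
  · simp

theorem exists_evalEval_ne {P : Polynomial (Polynomial ℂ)} (hP : P.Monic) (a : ℂ) :
    ∃ b, P.evalEval a b ≠ 0 := by
  have h1 : (P.map (Polynomial.evalRingHom a)) ≠ 0 := (hP.map _).ne_zero
  by_contra hcon
  push Not at hcon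
  apply h1
  apply Polynomial.funext
  intro b
  rw [Polynomial.map_evalRingHom_eval, hcon b, Polynomial.eval_zero]

section

variable {R : ℂ → ℂ → Prop} {G : Set ℂ} {ι : Type}

theorem bddAbove_ncl [Fintype ι] (hR : Rel R G) (X : Set (ι → ℂ)) : BddAbove (ncl R G '' X) :=
  ⟨Fintype.card ι, by rintro _ ⟨x, -, rfl⟩; exact ncl_le hR x⟩

theorem ncl_le_gd [Fintype ι] (hR : Rel R G) {X : Set (ι → ℂ)} {x : ι → ℂ} (hx : x ∈ X) :
    ncl R G x ≤ gd R G X := le_csSup (bddAbove_ncl hR X) ⟨x, hx, rfl⟩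

theorem gd_le [Fintype ι] {X : Set (ι → ℂ)} (hX : X.Nonempty) {r : ℕ}
    (h : ∀ x ∈ X, ncl R G x ≤ r) : gd R G X ≤ r :=
  csSup_le (hX.image _) (by rintro _ ⟨x, hx, rfl⟩; exact h x hx)

theorem gd_mono [Fintype ι] (hR : Rel R G) {X Y : Set (ι → ℂ)} (hX : X.Nonempty) (h : X ⊆ Y) :
    gd R G X ≤ gd R G Y := gd_le hX fun x hx => ncl_le_gd hR (h hx)

theorem gd_singleton (x : ι → ℂ) : gd R G {x} = ncl R G x := by
  unfold gd
  rw [Set.image_singleton]
  exact csSup_singleton _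

/-- A very general point of `X`. -/
structure Gen (R : ℂ → ℂ → Prop) (G : Set ℂ) (X : Set (ι → ℂ)) (x0 : ι → ℂ) : Prop where
  mem : x0 ∈ X
  rel : ∀ i j, R (x0 i) (x0 j) → ∃ P : Polynomial (Polynomial ℂ), P.Monic ∧
    (∀ a b, P.evalEval a b = 0 → R a b) ∧ toMv P i j ∈ idealOf X
  spec : ∀ i, x0 i ∈ G → ∃ a ∈ G, ∀ x ∈ X, x i = a

theorem Gen.rel' {X : Set (ι → ℂ)} {x0 : ι → ℂ} (h : Gen R G X x0) {i j : ι}
    (hij : R (x0 i) (x0 j)) {x : ι → ℂ} (hx : x ∈ X) : R (x i) (x j) := by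
  obtain ⟨P, -, h1, h2⟩ := h.rel i j hij
  apply h1
  rw [← eval_toMv]
  exact mem_idealOf.1 h2 x hx

theorem Gen.spec' {X : Set (ι → ℂ)} {x0 : ι → ℂ} (h : Gen R G X x0) {i : ι}
    (hi : x0 i ∈ G) {x : ι → ℂ} (hx : x ∈ X) : x i ∈ G := by
  obtain ⟨a, ha, h1⟩ := h.spec i hi
  rw [h1 x hx]
  exact ha

theorem exists_gen [Fintype ι] (hR : Corr R G) {X : Set (ι → ℂ)} (hX : IsVar X)
    (F : Set (MvPolynomial ι ℂ)) (hc : F.Countable) (hF : ∀ f ∈ F, f ∉ idealOf X) :
    ∃ x0, Gen R G X x0 ∧ ∀ f ∈ F, eval x0 f ≠ 0 := by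
  classical
  obtain ⟨P, hPm, hP⟩ := hR.poly
  let F1 : Set (MvPolynomial ι ℂ) := Set.range fun p : ℕ × ι × ι => toMv (P p.1) p.2.1 p.2.2
  let F2 : Set (MvPolynomial ι ℂ) := ⋃ i : ι, (fun a => MvPolynomial.X i - C a) '' G
  have hF1 : F1.Countable := Set.countable_range _
  have hF2 : F2.Countable := Set.countable_iUnion fun i => hR.count.image _
  obtain ⟨x0, hx0, h⟩ := exists_veryGeneral hX ((F ∪ F1 ∪ F2) \ (idealOf X : Set _))
    (((hc.union hF1).union hF2).mono Set.sdiff_subset) (fun f hf => hf.2)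
  refine ⟨x0, ⟨hx0, fun i j hij => ?_, fun i hi => ?_⟩, fun f hf =>
    h f ⟨Or.inl (Or.inl hf), hF f hf⟩⟩
  · obtain ⟨m, hm⟩ := (hP _ _).1 hij
    refine ⟨P m, hPm m, fun a b hab => (hP a b).2 ⟨m, hab⟩, ?_⟩
    by_contra hcon
    apply h (toMv (P m) i j) ⟨Or.inl (Or.inr ⟨(m, i, j), rfl⟩), hcon⟩
    rw [eval_toMv]
    exact hm
  · refine ⟨x0 i, hi, fun x hx => ?_⟩
    have h1 : (MvPolynomial.X i - C (x0 i) : MvPolynomial ι ℂ) ∈ idealOf X := by
      by_contra hcon
      apply h _ ⟨Or.inr (Set.mem_iUnion.2 ⟨i, x0 i, hi, rfl⟩), hcon⟩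
      simp
    have h2 := mem_idealOf.1 h1 x hx
    rw [map_sub, eval_X, eval_C, sub_eq_zero] at h2
    exact h2

theorem exists_gen' [Fintype ι] (hR : Corr R G) {X : Set (ι → ℂ)} (hX : IsVar X) :
    ∃ x0, Gen R G X x0 := by
  obtain ⟨x0, h, -⟩ := exists_gen hR hX ∅ Set.countable_empty (by simp)
  exact ⟨x0, h⟩

theorem Gen.ncl_eq [Fintype ι] (hR : Rel R G) {X : Set (ι → ℂ)} {x0 : ι → ℂ}
    (h : Gen R G X x0) : ncl R G x0 = gd R G X := by
  apply le_antisymm (ncl_le_gd hR h.mem)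
  apply gd_le ⟨x0, h.mem⟩
  intro x hx
  have h1 := ncl_add_card_le (y := x) hR (fun i j hij => h.rel' hij hx) (fun i hi => h.spec' hi hx)
    (ind_empty x0) (by simp)
  simpa using h1

/-- Independent coordinates of a very general point are not equivalent. -/
theorem Gen.ind [Fintype ι] (hR : Rel R G) {X : Set (ι → ℂ)} {x0 : ι → ℂ} (h : Gen R G X x0)
    {s : Finset ι} (hs : Indep X (fun i : s => (i : ι))) : Ind R G x0 s := by
  classical
  constructor
  · intro i hi hG
    obtain ⟨a, -, ha⟩ := h.spec i hG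
    have h1 := hs (MvPolynomial.X ⟨i, hi⟩ - C a) (by
      intro x hx
      simp [ha x hx])
    have h2 := congrArg (eval fun _ => a + 1) h1
    simp at h2
  · intro i hi j hj hij
    by_contra hne
    obtain ⟨P, hPm, -, hP⟩ := h.rel i j hij
    have h1 := hs (toMv P ⟨i, hi⟩ ⟨j, hj⟩) (by
      intro x hx
      rw [eval_toMv, ← eval_toMv P i j x]
      exact mem_idealOf.1 hP x hx)
    obtain ⟨b, hb⟩ := exists_evalEval_ne hPm 0
    apply hb
    have h2 := congrArg (eval fun k : s => if k = ⟨i, hi⟩ then (0 : ℂ) else b) h1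
    rw [eval_toMv, map_zero] at h2
    rw [if_pos rfl, if_neg (by intro h3; exact hne (Subtype.ext_iff.1 h3).symm)] at h2
    exact h2

/-- Every closed irreducible set contains a dense set of points with few classes. -/
theorem exists_point_ncl [Fintype ι] (hR : Corr R G) {X : Set (ι → ℂ)} (hX : IsVar X)
    {f : MvPolynomial ι ℂ} (hf : f ∉ idealOf X) :
    ∃ x ∈ X, ncl R G x + dim X ≤ gd R G X ∧ eval x f ≠ 0 := by
  obtain ⟨x0, h0⟩ := exists_gen' hR hX
  obtain ⟨s, hs, hsc⟩ := exists_indep hX.irred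
  obtain ⟨x, hx, hxs, hfx⟩ := exists_point_in hX hR.inf hs hsc hf
  refine ⟨x, hx, ?_, hfx⟩
  rw [← hsc, ← h0.ncl_eq hR.toRel]
  exact ncl_add_card_le hR.toRel (fun i j hij => h0.rel' hij hx) (fun i hi => h0.spec' hi hx)
    (h0.ind hR.toRel hs) hxs

/-- The projection to a transversal preserves the dimension. -/
theorem dim_le_dim_img [Fintype ι] {X : Set (ι → ℂ)} (hX : IsVar X)
    {x0 : ι → ℂ} (h0 : Gen R G X x0) {T : Finset ι} (hT : Cov R G x0 T) :
    dim X ≤ dim (img (fun i : T => (i : ι)) X) := by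
  classical
  have : (idealOf X).IsPrime := hX.irred
  obtain ⟨s, hsT, hs, hsc⟩ := exists_indep_in hX.irred (T : Set ι) (by
    intro i
    set z : ι → MvPolynomial ι ℂ ⧸ idealOf X :=
      fun i => Ideal.Quotient.mk (idealOf X) (MvPolynomial.X i) with hz
    show IsAlgebraic (Algebra.adjoin ℂ (z '' T)) (z i)
    by_cases hG : x0 i ∈ G
    · obtain ⟨a, -, ha⟩ := h0.spec i hG
      have h1 : z i = algebraMap (Algebra.adjoin ℂ (z '' T)) _ (algebraMap ℂ _ a) := by
        rw [← IsScalarTower.algebraMap_apply]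
        show Ideal.Quotient.mk (idealOf X) (MvPolynomial.X i) = Ideal.Quotient.mk (idealOf X) (C a)
        rw [Ideal.Quotient.eq, mem_idealOf]
        intro x hx
        simp [ha x hx]
      rw [h1]
      exact isAlgebraic_algebraMap _
    · obtain ⟨t, ht, hti⟩ := hT i hG
      obtain ⟨P, hPm, -, hP⟩ := h0.rel t i hti
      have hzt : z t ∈ Algebra.adjoin ℂ (z '' T) := Algebra.subset_adjoin ⟨t, ht, rfl⟩
      let φ : Polynomial ℂ →+* Algebra.adjoin ℂ (z '' T) :=
        (Polynomial.aeval (⟨z t, hzt⟩ : Algebra.adjoin ℂ (z '' T))).toRingHom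
      have h2 : IsIntegral (Algebra.adjoin ℂ (z '' T)) (z i) := by
        refine ⟨P.map φ, hPm.map φ, ?_⟩
        rw [Polynomial.eval₂_map]
        have h3 : (Ideal.Quotient.mk (idealOf X)) (toMv P t i) = 0 :=
          Ideal.Quotient.eq_zero_iff_mem.2 hP
        rw [toMv, Polynomial.hom_eval₂] at h3
        rw [← h3]
        congr 1
        ext a
        · show algebraMap (Algebra.adjoin ℂ (z '' T)) _ (Polynomial.aeval _ (Polynomial.C a)) =
            Ideal.Quotient.mk (idealOf X) (Polynomial.aeval _ (Polynomial.C a))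
          rw [Polynomial.aeval_C, Polynomial.aeval_C]
          rfl
        · show algebraMap (Algebra.adjoin ℂ (z '' T)) _ (Polynomial.aeval _ Polynomial.X) =
            Ideal.Quotient.mk (idealOf X) (Polynomial.aeval _ Polynomial.X)
          rw [Polynomial.aeval_X, Polynomial.aeval_X]
          rfl
      exact h2.isAlgebraic)
  have h1 : Indep (img (fun i : T => (i : ι)) X) (fun i : s => (⟨i, hsT i i.2⟩ : T)) :=
    Indep.img' hs
  have h2 := h1.card_le (irred_img hX.irred)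
  rw [← hsc]
  simpa using h2

end

end Pool.Agent.T6.H15.MZ
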