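import Pool.Agent.H294ZP.TD
import Pool.Agent.H294ZP.TBproof
import Pool.Agent.H294ZP.TA1
import Pool.Agent.H294ZP.TaskTA2
import Pool.Agent.H294ZP.TaskTC
import Pool.Agent.H676R4.ZPTF
import Pool.Agent.T6.H15.MZ.Gen

/-!
# Isogenies and singular moduli
-/

set_option autoImplicit false

open UpperHalfPlane ModularForm Function H294ZP Filter Topology

namespace Pool.Agent.T6.H15.MZ

/-- `x` and `y` are the `j`-invariants of isogenous elliptic curves. -/
def Isog (x y : ℂ) : Prop := ∃ (τ w : ℍ) (a b c d : ℤ), 0 < a * d - b * c ∧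
  (w : ℂ) * (c * τ + d) = a * τ + b ∧ x = jj τ ∧ y = jj w

/-- `x` is the `j`-invariant of an elliptic curve with complex multiplication. -/
def Singular (x : ℂ) : Prop := ∃ τ : ℍ, IsCM τ ∧ x = jj τ

theorem lauJ : Lau 1 1 1 jj := ta2

theorem tendsto_q : Tendsto (qq 1) atImInfty (𝓝 0) := TBproof.tendsto_qq 1 one_pos

theorem tendsto_qj : Tendsto (fun τ => qq 1 τ * jj τ) atImInfty (𝓝 1) := by
  have h := TBproof.lau_limit 1 1 1 jj one_pos lauJ
  simpa using h

theorem tendsto_inv_sub (x : ℂ) : Tendsto (fun τ => (jj τ - x)⁻¹) atImInfty (𝓝 0) := by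
  have h1 : Tendsto (fun τ => qq 1 τ / (qq 1 τ * jj τ - qq 1 τ * x)) atImInfty (𝓝 (0 / (1 - 0 * x))) :=
    tendsto_q.div (tendsto_qj.sub (tendsto_q.mul_const x)) (by simp)
  rw [zero_div] at h1
  refine h1.congr fun τ => ?_
  rw [← mul_sub, div_mul_eq_div_div, div_self (TBproof.qq_ne_zero 1 τ), one_div]

/-- Invariant holomorphic functions with a limit at infinity are constant. -/
theorem const_of_tendsto (f : ℍ → ℂ) (A : ℂ) (hI : Inv f) (hH : Hol f)
    (hlim : Tendsto f atImInfty (𝓝 A)) : ∀ τ, f τ = A := by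
  have hslash : ∀ γ : Matrix.SpecialLinearGroup (Fin 2) ℤ, f ∣[(0 : ℤ)] γ = f := by
    intro γ
    ext τ
    rw [SL_slash_apply]
    simp only [neg_zero, zpow_zero, mul_one]
    have hdet := γ.det_coe
    rw [Matrix.det_fin_two] at hdet
    apply hI (γ 0 0) (γ 0 1) (γ 1 0) (γ 1 1) hdet τ (γ • τ)
    rw [coe_specialLinearGroup_apply]
    have hd : ((γ 1 0 : ℤ) : ℂ) * (τ : ℂ) + ((γ 1 1 : ℤ) : ℂ) ≠ 0 := by
      have := denom_ne_zero γ τ
      simpa [denom] using this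
    simp only [eq_intCast, Complex.ofReal_intCast]
    rw [div_mul_cancel₀ _ hd]
  let g : ModularForm (MonoidHom.range (Matrix.SpecialLinearGroup.mapGL ℝ :
      Matrix.SpecialLinearGroup (Fin 2) ℤ →* GL (Fin 2) ℝ)) 0 :=
    { toFun := f
      slash_action_eq' := by
        rintro _ ⟨γ, rfl⟩
        exact hslash γ
      holo' := mdifferentiable_iff.2 hH
      bdd_at_cusps' := by
        intro c hc
        rw [OnePoint.isBoundedAt_iff_forall_SL2Z hc]
        intro γ _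
        rw [hslash γ]
        exact hlim.isBigO_one ℝ }
  obtain ⟨c, hc⟩ := ModularFormClass.levelOne_weight_zero_const g
  have hf : f = Function.const ℍ c := hc
  have hcA : c = A := by
    rw [hf] at hlim
    exact tendsto_nhds_unique tendsto_const_nhds hlim
  intro τ
  rw [hf, ← hcA]; rfl

theorem jj_surjective : Function.Surjective jj := by
  intro x
  by_contra hcon
  push Not at hcon
  have h1 : ∀ τ, (jj τ - x)⁻¹ = 0 := by
    apply const_of_tendsto (fun τ => (jj τ - x)⁻¹) 0 _ _ (tendsto_inv_sub x)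
    · intro a b c d hdet τ w hw
      show (jj w - x)⁻¹ = (jj τ - x)⁻¹
      rw [inv_jj a b c d hdet τ w hw]
    · have h2 : DifferentiableOn ℂ (fun z => (jj ∘ ofComplex) z - x) {z | 0 < z.im} :=
        DifferentiableOn.sub_const hol_jj x
      exact h2.inv fun z _ => sub_ne_zero.2 (hcon _)
  exact (inv_ne_zero (sub_ne_zero.2 (hcon I))) (h1 I)

open Polynomial in
/-- The modular polynomial. -/
theorem exists_modpoly {N : ℕ} (hN : 0 < N) : ∃ Φ : Polynomial (Polynomial ℂ), Φ.Monic ∧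
    (∀ (τ : ℍ) (y : ℂ), Φ.evalEval (jj τ) y = 0 → ∃ (w : ℍ) (a b d : ℤ), 0 < a ∧ 0 < d ∧
      (w : ℂ) * d = a * τ + b ∧ y = jj w) ∧
    (∀ (τ w : ℍ) (a b c d : ℤ), a * d - b * c = N → (w : ℂ) * (c * τ + d) = a * τ + b →
      Φ.evalEval (jj τ) (jj w) = 0) := by
  classical
  have hA : TA := ⟨ta1.1, ta1.2, ta2⟩
  have hC : TC := tc
  have hB : TB := TBproof.tb hA hC
  obtain ⟨ι, _, _, α, δ, β, h, h1, h2, h3, h4⟩ := TF676.tf ta1.1 N hN
  have hG : ∀ k, TDaux.Lx N (fun τ => jj (h k τ)) := by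
    intro k
    obtain ⟨ha, hd, had⟩ := h1 k
    have := hC.2.2.2.2 hA.2.1 hA.2.2 (α k) (δ k) (β k) ha hd (h k) (h2 k)
    rw [had] at this
    exact ⟨⟨_, _, this.1⟩, this.2⟩
  let F : ℍ → ℂ[X] := fun τ => ∏ k, (X - C (jj (h k τ)))
  have hco := TDaux.coeff_prod hC hN (fun k τ => jj (h k τ)) hG Finset.univ
  have hinv : ∀ j, Inv (fun τ => (F τ).coeff j) := by
    intro j p q r s hps τ w hw
    obtain ⟨σ, hσ⟩ := h3 p q r s hps τ w hw
    have : F w = F τ := by
      show ∏ k, (X - C (jj (h k w))) = ∏ k, (X - C (jj (h k τ)))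
      rw [← Equiv.prod_comp σ (fun k => (X - C (jj (h k τ))))]
      exact Finset.prod_congr rfl fun k _ => by rw [hσ k]
    show (F w).coeff j = (F τ).coeff j
    rw [this]
  have hmon : ∀ τ, (F τ).Monic := fun τ => monic_prod_of_monic _ _ fun k _ => monic_X_sub_C _
  have hdeg : ∀ τ, (F τ).natDegree = Fintype.card ι := by
    intro τ
    show (∏ k, (X - C (jj (h k τ)))).natDegree = _
    rw [natDegree_prod_of_monic _ _ fun k _ => monic_X_sub_C _]
    simp
  have hP : ∀ j, ∃ P : ℂ[X], ∀ τ, (F τ).coeff j = P.eval (jj τ) := by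
    intro j
    obtain ⟨⟨m, A, hL⟩, hH⟩ := hco j
    obtain ⟨P, -, hP2, -⟩ := hB N hN m A _ (hinv j) hH hL
    exact ⟨P, hP2⟩
  choose P hP using hP
  set n := Fintype.card ι with hn
  set S : Polynomial (Polynomial ℂ) := ∑ j : Fin n, C (P j) * X ^ (j : ℕ) with hS
  have hev : ∀ (τ : ℍ) (y : ℂ), (X ^ n + S).evalEval (jj τ) y = (F τ).eval y := by
    intro τ y
    rw [eval_eq_sum_range, hdeg τ, Finset.sum_range_succ, ← hdeg τ, (hmon τ).coeff_natDegree,
      hdeg τ, one_mul, evalEval, eval_add, eval_add, eval_pow, eval_X, eval_pow, eval_C, add_comm]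
    congr 1
    rw [hS, eval_finsetSum, eval_finsetSum, Finset.sum_range]
    refine Finset.sum_congr rfl fun j _ => ?_
    rw [hP, eval_mul, eval_C, eval_pow, eval_X, eval_mul, eval_pow, eval_C]
  refine ⟨X ^ n + S, monic_X_pow_add (degree_sum_fin_lt _), ?_, ?_⟩
  · intro τ y hy
    rw [hev] at hy
    change (∏ k, (X - C (jj (h k τ)))).eval y = 0 at hy
    rw [eval_prod, Finset.prod_eq_zero_iff] at hy
    obtain ⟨k, -, hk⟩ := hy
    rw [eval_sub, eval_X, eval_C, sub_eq_zero] at hk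
    obtain ⟨ha, hd, -⟩ := h1 k
    exact ⟨h k τ, α k, β k, δ k, by exact_mod_cast ha, by exact_mod_cast hd,
      by exact_mod_cast h2 k τ, hk⟩
  · intro τ w a b c d hdet hw
    rw [hev]
    obtain ⟨k, hk⟩ := h4 a b c d hdet τ w hw
    show (∏ k, (X - C (jj (h k τ)))).eval (jj w) = 0
    rw [eval_prod]
    exact Finset.prod_eq_zero (Finset.mem_univ k) (by rw [hk]; simp)

/-- An isogenous number is `j` of a point related to a given one. -/
theorem isog_of_jj {x y : ℂ} (h : Isog x y) {τ : ℍ} (hx : x = jj τ) :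
    ∃ (w : ℍ) (a b d : ℤ), 0 < a ∧ 0 < d ∧ (w : ℂ) * d = a * τ + b ∧ y = jj w := by
  obtain ⟨τ', w', a, b, c, d, hdet, hw, hx', rfl⟩ := h
  obtain ⟨N, hN⟩ : ∃ N : ℕ, a * d - b * c = N := ⟨(a * d - b * c).toNat, by omega⟩
  have hN0 : 0 < N := by
    have : (0 : ℤ) < N := by rw [← hN]; exact hdet
    exact_mod_cast this
  obtain ⟨Φ, -, h1, h2⟩ := exists_modpoly hN0
  have h3 := h2 τ' w' a b c d hN hw
  rw [← hx', hx] at h3
  exact h1 τ _ h3

theorem isog_equiv : Equivalence Isog := by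
  refine ⟨fun x => ?_, ?_, ?_⟩
  · obtain ⟨τ, rfl⟩ := jj_surjective x
    exact ⟨τ, τ, 1, 0, 0, 1, by norm_num, by push_cast; ring, rfl, rfl⟩
  · rintro x y ⟨τ, w, a, b, c, d, hdet, hw, rfl, rfl⟩
    refine ⟨w, τ, d, -b, -c, a, by linarith, ?_, rfl, rfl⟩
    push_cast
    linear_combination -hw
  · intro x z y hxz hzy
    obtain ⟨τ, w, a, b, c, d, hdet, hw, rfl, rfl⟩ := hxz
    obtain ⟨w', a', b', d', ha', hd', hw', rfl⟩ := isog_of_jj hzy rfl
    refine ⟨τ, w', a' * a + b' * c, a' * b + b' * d, d' * c, d' * d, ?_, ?_, rfl, rfl⟩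
    · have h1 : (a' * a + b' * c) * (d' * d) - (a' * b + b' * d) * (d' * c) =
        (a' * d') * (a * d - b * c) := by ring
      rw [h1]
      positivity
    · push_cast
      linear_combination ((c : ℂ) * τ + d) * hw' + (a' : ℂ) * hw

theorem singular_sat {x y : ℂ} (hx : Singular x) (h : Isog x y) : Singular y := by
  obtain ⟨τ, ⟨A, B, C, hA, hq⟩, rfl⟩ := hx
  obtain ⟨w, a, b, d, ha, hd, hw, rfl⟩ := isog_of_jj h rfl
  refine ⟨w, ⟨A * d ^ 2, -2 * A * b * d + B * a * d, A * b ^ 2 - B * a * b + C * a ^ 2, ?_, ?_⟩, rfl⟩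
  · exact mul_ne_zero hA (pow_ne_zero _ hd.ne')
  · push_cast
    linear_combination (A * (w * d + a * τ - b) + B * a : ℂ) * hw + (a : ℂ) ^ 2 * hq

theorem singular_infinite : {x | Singular x}.Infinite := by
  intro hfin
  obtain ⟨M, hM⟩ := (hfin.image (fun x => ‖x‖)).bddAbove
  have h1 := tendsto_inv_sub 0
  simp only [sub_zero] at h1
  have h2 : ∀ᶠ τ in atImInfty, ‖(jj τ)⁻¹‖ < 1 / (|M| + 1) := by
    have h3 := (tendsto_zero_iff_norm_tendsto_zero.1 h1).eventually_lt_const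
      (show (0 : ℝ) < 1 / (|M| + 1) by positivity)
    exact h3
  have h3 : ∀ᶠ τ in atImInfty, ‖qq 1 τ * jj τ - 1‖ < 1 := by
    have h4 := (tendsto_iff_norm_sub_tendsto_zero.1 tendsto_qj).eventually_lt_const
      (show (0 : ℝ) < 1 by norm_num)
    exact h4
  have h4 := (h2.and h3)
  rw [atImInfty, Filter.eventually_comap] at h4
  obtain ⟨Y, hY⟩ := Filter.eventually_atTop.1 h4
  obtain ⟨n, hn⟩ := exists_nat_ge (max Y 1)
  have hn1 : (1 : ℝ) ≤ n := (le_max_right _ _).trans hn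
  let τ : ℍ := ⟨⟨0, n⟩, by show (0 : ℝ) < n; linarith⟩
  have hτ : (τ : ℂ) = n * Complex.I := by
    apply Complex.ext
    · simp [τ]
    · simp [τ]
  obtain ⟨h5, h6⟩ := hY n ((le_max_left _ _).trans hn) τ rfl
  have h7 : jj τ ≠ 0 := by
    intro h0
    rw [h0, mul_zero, zero_sub, norm_neg, norm_one] at h6
    exact lt_irrefl _ h6
  have h8 : Singular (jj τ) := by
    refine ⟨τ, ⟨1, 0, (n : ℤ) ^ 2, one_ne_zero, ?_⟩, rfl⟩
    rw [hτ]
    push_cast
    linear_combination (n : ℂ) ^ 2 * Complex.I_sq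
  have h9 : ‖jj τ‖ ≤ M := hM ⟨_, h8, rfl⟩
  rw [norm_inv, inv_lt_comm₀ (norm_pos_iff.2 h7) (by positivity), one_div, inv_inv] at h5
  have h10 := le_abs_self M
  linarith

theorem singular_countable : {x | Singular x}.Countable := by
  have h1 : {τ : ℍ | IsCM τ}.Countable := by
    have h2 : {z : ℂ | IsAlgebraic ℤ z}.Countable := Algebraic.countable ℤ ℂ
    refine (h2.preimage_of_injOn (f := fun τ : ℍ => (τ : ℂ))
      (fun a _ b _ h => UpperHalfPlane.ext h)).mono ?_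
    rintro τ ⟨a, b, c, ha, hq⟩
    refine ⟨Polynomial.C a * Polynomial.X ^ 2 + Polynomial.C b * Polynomial.X + Polynomial.C c, ?_, ?_⟩
    · intro h0
      have h3 := congrArg (fun p => p.coeff 2) h0
      simp only [Polynomial.coeff_add, Polynomial.coeff_C_mul, Polynomial.coeff_X_pow,
        Polynomial.coeff_zero, Polynomial.coeff_C, Polynomial.coeff_X] at h3
      norm_num at h3
      exact ha h3
    · simpa using hq
  refine (h1.image jj).mono ?_
  rintro x ⟨τ, hτ, rfl⟩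
  exact ⟨τ, hτ, rfl⟩

theorem corr : Corr Isog {x | Singular x} := by
  have hmp : ∀ m : ℕ, ∃ Φ : Polynomial (Polynomial ℂ), Φ.Monic ∧
    (∀ (τ : ℍ) (y : ℂ), Φ.evalEval (jj τ) y = 0 → ∃ (w : ℍ) (a b d : ℤ), 0 < a ∧ 0 < d ∧
      (w : ℂ) * d = a * τ + b ∧ y = jj w) ∧
    (∀ (τ w : ℍ) (a b c d : ℤ), a * d - b * c = (m + 1 : ℕ) →
      (w : ℂ) * (c * τ + d) = a * τ + b → Φ.evalEval (jj τ) (jj w) = 0) :=
    fun m => exists_modpoly (Nat.succ_pos m)
  choose P hPm hP1 hP2 using hmp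
  have hP : ∀ x y, Isog x y ↔ ∃ m, (P m).evalEval x y = 0 := by
    intro x y
    constructor
    · rintro ⟨τ, w, a, b, c, d, hdet, hw, rfl, rfl⟩
      refine ⟨(a * d - b * c - 1).toNat, hP2 _ τ w a b c d ?_ hw⟩
      push_cast
      rw [Int.toNat_of_nonneg (by omega)]
      ring
    · rintro ⟨m, hm⟩
      obtain ⟨τ, rfl⟩ := jj_surjective x
      obtain ⟨w, a, b, d, ha, hd, hw, rfl⟩ := hP1 m τ y hm
      refine ⟨τ, w, a, b, 0, d, by simpa using mul_pos ha hd, ?_, rfl, rfl⟩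
      push_cast
      rw [zero_mul, zero_add]
      exact hw
  refine ⟨⟨isog_equiv, fun x y hx hxy => singular_sat hx hxy⟩, singular_infinite,
    singular_countable, fun x => ?_, P, hPm, hP⟩
  have h1 : {y | Isog x y} ⊆ ⋃ m, {y | (P m).evalEval x y = 0} := by
    intro y hy
    obtain ⟨m, hm⟩ := (hP x y).1 hy
    exact Set.mem_iUnion.2 ⟨m, hm⟩
  refine (Set.countable_iUnion fun m => Set.Finite.countable ?_).mono h1
  have h2 : ((P m).map (Polynomial.evalRingHom x)) ≠ 0 := ((hPm m).map _).ne_zero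
  refine (Polynomial.rootSet_finite ((P m).map (Polynomial.evalRingHom x)) ℂ).subset ?_
  intro y hy
  rw [Polynomial.mem_rootSet]
  refine ⟨h2, ?_⟩
  rw [Polynomial.aeval_def, Algebra.algebraMap_self, Polynomial.eval₂_id,
    Polynomial.map_evalRingHom_eval]
  exact hy

end Pool.Agent.T6.H15.MZ
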