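import Pool.Agent.T6.H15.MZ.Gen

/-!
# Points with very few classes on fibred powers
-/

set_option autoImplicit false

open MvPolynomial

namespace Pool.Agent.T6.H15.MZ

open Pool.Agent.T6.H15.ZP

variable {R : ℂ → ℂ → Prop} {G : Set ℂ} {ι κ μ : Type}

/-- Points whose coordinates are pairwise not equivalent and avoid a countable set. -/
theorem exists_ind_avoid [Fintype κ] (hR : Corr R G) {V : Set (κ → ℂ)} (hV : IsVar V)
    (hnc : ∀ k a, ∃ v ∈ V, v k ≠ a) {P : ℕ → Polynomial (Polynomial ℂ)}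
    (hP : ∀ x y, R x y ↔ ∃ m, (P m).evalEval x y = 0)
    (hne : ∀ m k l, k ≠ l → toMv (P m) k l ∉ idealOf V) {B : Set ℂ} (hB : B.Countable) :
    ∃ v ∈ V, Ind R G v Finset.univ ∧ ∀ k, v k ∉ B := by
  classical
  let F1 : Set (MvPolynomial κ ℂ) := {f | ∃ m k l, k ≠ l ∧ f = toMv (P m) k l}
  let F2 : Set (MvPolynomial κ ℂ) := ⋃ i : κ, (fun a => MvPolynomial.X i - C a) '' (G ∪ B)
  have hF1 : F1.Countable := by
    refine (Set.countable_range fun p : ℕ × κ × κ => toMv (P p.1) p.2.1 p.2.2).mono ?_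
    rintro _ ⟨m, k, l, -, rfl⟩
    exact ⟨(m, k, l), rfl⟩
  have hF2 : F2.Countable := Set.countable_iUnion fun i => (hR.count.union hB).image _
  obtain ⟨v, hv, h⟩ := exists_veryGeneral hV (F1 ∪ F2) (hF1.union hF2) (by
    rintro f (⟨m, k, l, hkl, rfl⟩ | hf)
    · exact hne m k l hkl
    · obtain ⟨k, a, -, rfl⟩ := Set.mem_iUnion.1 hf
      obtain ⟨v, hv, hva⟩ := hnc k a
      exact not_mem_of_eval hv (by simpa [sub_eq_zero] using hva))
  have h2 : ∀ k, v k ∉ G ∪ B := by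
    intro k hk
    apply h _ (Or.inr (Set.mem_iUnion.2 ⟨k, v k, hk, rfl⟩))
    simp
  refine ⟨v, hv, ⟨fun k _ hk => h2 k (Or.inl hk), fun k _ l _ hkl => ?_⟩,
    fun k hk => h2 k (Or.inr hk)⟩
  by_contra hne'
  obtain ⟨m, hm⟩ := (hP _ _).1 hkl
  apply h _ (Or.inl ⟨m, k, l, hne', rfl⟩)
  rw [eval_toMv]
  exact hm

/-- The data of a Hodge generic subvariety `{c} × V` of excess one, without constant coordinates on
`V`. -/
structure Base (R : ℂ → ℂ → Prop) (G : Set ℂ) [Fintype μ] [Fintype κ] (c : μ → ℂ)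
    (V : Set (κ → ℂ)) : Prop where
  cind : Ind R G c Finset.univ
  var : IsVar V
  nonconst : ∀ k a, ∃ v ∈ V, v k ≠ a
  generic : ∃ v ∈ V, Ind R G v Finset.univ
  dense : ∀ f, f ∉ idealOf V → ∃ v ∈ V,
    ncl R G (Sum.elim c v) + dim V + 1 ≤ Fintype.card μ + Fintype.card κ ∧ eval v f ≠ 0

/-- The properties of the power with `k` factors. -/
structure IsPow (R : ℂ → ℂ → Prop) (G : Set ℂ) (h k : ℕ) [Fintype μ] (c : μ → ℂ) [Fintype ι]
    (β : μ → ι) (W : Set (ι → ℂ)) : Prop where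
  card : Fintype.card ι = Fintype.card μ + k * h
  var : IsVar W
  base : ∀ w ∈ W, ∀ m, w (β m) = c m
  generic : ∃ w ∈ W, Ind R G w Finset.univ
  dense : ∀ f, f ∉ idealOf W → ∃ w ∈ W, ncl R G w + dim W + k ≤ Fintype.card ι ∧ eval w f ≠ 0

theorem isPow_zero (hR : Rel R G) (h : ℕ) [Fintype μ] {c : μ → ℂ} (hc : Ind R G c Finset.univ) :
    IsPow R G h 0 c (fun m : μ => m) {c} where
  card := by simp
  var := isVar_singleton c
  base := by
    rintro w rfl m
    rfl
  generic := ⟨c, rfl, hc⟩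
  dense := by
    intro f hf
    obtain ⟨w, hw, hwf⟩ := exists_of_not_mem hf
    refine ⟨w, hw, ?_, hwf⟩
    rw [dim_singleton]
    exact ncl_le hR w

theorem isPow_succ (hR : Corr R G) {h k : ℕ} [Fintype μ] [Fintype κ] [Fintype ι] {c : μ → ℂ}
    {V : Set (κ → ℂ)} (hV : Base R G c V) (hh : Fintype.card κ = h) {β : μ → ι}
    {W : Set (ι → ℂ)} (hW : IsPow R G h k c β W) :
    IsPow R G h (k + 1) c (fun m => (Sum.inl (β m) : ι ⊕ κ)) (prodSet W V) where
  card := by
    rw [Fintype.card_sum, hW.card, hh]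
    ring
  var := hW.var.prod hV.var
  base := fun w hw m => hW.base _ hw.1 m
  generic := by
    obtain ⟨w, hw, hwi⟩ := hW.generic
    obtain ⟨P, hPm, hP⟩ := hR.poly
    obtain ⟨v0, hv0, hvi⟩ := hV.generic
    obtain ⟨v, hv, h1, h2⟩ := exists_ind_avoid hR hV.var hV.nonconst hP (by
      intro m k l hkl
      apply not_mem_of_eval hv0
      rw [eval_toMv]
      intro h0
      exact hkl (hvi.2 k (Finset.mem_univ k) l (Finset.mem_univ l) ((hP _ _).2 ⟨m, h0⟩)))
      (B := ⋃ i : ι, {y | R (w i) y}) (Set.countable_iUnion fun i => hR.cls (w i))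
    refine ⟨_, elim_mem hw hv, ind_elim hR.toRel hwi h1 fun i k hik => ?_⟩
    exact h2 k (Set.mem_iUnion.2 ⟨i, hik⟩)
  dense := by
    intro f hf
    obtain ⟨z, hz, hfz⟩ := exists_of_not_mem hf
    obtain ⟨w, hw, v, hv, rfl⟩ := exists_elim hz
    obtain ⟨w', hw', h1, h2⟩ := hW.dense (fixR v f) (not_mem_of_eval hw (by rwa [eval_fixR]))
    rw [eval_fixR] at h2
    obtain ⟨v', hv', h3, h4⟩ := hV.dense (fixL w' f) (not_mem_of_eval hv (by rwa [eval_fixL]))
    rw [eval_fixL] at h4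
    refine ⟨_, elim_mem hw' hv', ?_, h4⟩
    have h5 := ncl_elim_le (v := v') hR.toRel (hW.base w' hw') hV.cind
    rw [dim_prod hW.var.irred hV.var.irred, Fintype.card_sum]
    omega

theorem exists_isPow (hR : Corr R G) [Fintype μ] [Fintype κ] {c : μ → ℂ}
    {V : Set (κ → ℂ)} (hV : Base R G c V) (k : ℕ) :
    ∃ (ι : Type) (_ : Fintype ι) (β : μ → ι) (W : Set (ι → ℂ)),
      IsPow R G (Fintype.card κ) k c β W := by
  induction k with
  | zero => exact ⟨μ, inferInstance, _, _, isPow_zero hR.toRel _ hV.cind⟩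
  | succ k ih =>
    obtain ⟨ι, _, β, W, hW⟩ := ih
    exact ⟨ι ⊕ κ, inferInstance, _, _, isPow_succ hR hV rfl hW⟩

/-! ### Padding -/

theorem pad_generic (hR : Corr R G) [Fintype κ] [Fintype ι] {W : Set (ι → ℂ)}
    (hW : ∃ w ∈ W, Ind R G w Finset.univ) :
    ∃ w ∈ prodSet W (Set.univ : Set (κ → ℂ)), Ind R G w Finset.univ := by
  classical
  obtain ⟨w, hw, hwi⟩ := hW
  obtain ⟨P, hPm, hP⟩ := hR.poly
  obtain ⟨v, hv, h1, h2⟩ := exists_ind_avoid hR (isVar_univ (ι := κ))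
    (fun k a => ⟨fun _ => a + 1, Set.mem_univ _, by simp⟩) hP (by
      intro m k l hkl
      obtain ⟨b, hb⟩ := exists_evalEval_ne (hPm m) 0
      apply not_mem_of_eval (x := fun j => if j = k then (0 : ℂ) else b) (Set.mem_univ _)
      rw [eval_toMv, if_pos rfl, if_neg hkl.symm]
      exact hb)
    (B := ⋃ i : ι, {y | R (w i) y}) (Set.countable_iUnion fun i => hR.cls (w i))
  refine ⟨_, elim_mem hw hv, ind_elim hR.toRel hwi h1 fun i k hik => ?_⟩
  exact h2 k (Set.mem_iUnion.2 ⟨i, hik⟩)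

theorem ncl_elim_special (hR : Rel R G) [Fintype κ] [Fintype ι] (w : ι → ℂ) {v : κ → ℂ}
    (hv : ∀ k, v k ∈ G) : ncl R G (Sum.elim w v) ≤ ncl R G w := by
  classical
  obtain ⟨U, -, hU, hUc, hUn⟩ := exists_transversal hR (ind_empty (R := R) (G := G) w)
  rw [← hUn, ← Finset.card_map (Function.Embedding.inl : ι ↪ ι ⊕ κ)]
  apply ncl_le_card hR
  rintro (i | k) hi
  · obtain ⟨t, ht, h2⟩ := hUc i hi
    exact ⟨Sum.inl t, Finset.mem_map.2 ⟨t, ht, rfl⟩, h2⟩
  · exact absurd (hv k) hi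

theorem pad_dense (hR : Corr R G) [Fintype κ] [Fintype ι] {W : Set (ι → ℂ)} (hW : IsVar W)
    {r : ℕ} (hd : ∀ f, f ∉ idealOf W → ∃ w ∈ W, ncl R G w + dim W + r ≤ Fintype.card ι ∧
      eval w f ≠ 0) :
    ∀ f, f ∉ idealOf (prodSet W (Set.univ : Set (κ → ℂ))) →
      ∃ w ∈ prodSet W (Set.univ : Set (κ → ℂ)), ncl R G w +
        dim (prodSet W (Set.univ : Set (κ → ℂ))) + r ≤ Fintype.card (ι ⊕ κ) ∧ eval w f ≠ 0 := by
  classical
  intro f hf
  obtain ⟨z, hz, hfz⟩ := exists_of_not_mem hf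
  obtain ⟨w, hw, v, hv, rfl⟩ := exists_elim hz
  obtain ⟨w', hw', h1, h2⟩ := hd (fixR v f) (not_mem_of_eval hw (by rwa [eval_fixR]))
  rw [eval_fixR] at h2
  obtain ⟨v', hv', h4⟩ : ∃ v' : κ → ℂ, (∀ k, v' k ∈ G) ∧ eval v' (fixL w' f) ≠ 0 := by
    by_contra hcon
    push Not at hcon
    have h3 : fixL w' f = 0 := by
      refine MvPolynomial.funext_set (p := fixL w' f) (q := 0) (fun _ : κ => G)
        (fun _ => hR.inf) ?_
      intro x hx
      rw [map_zero]
      exact hcon x fun i => hx i (Set.mem_univ i)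
    rw [← eval_fixL, h3, map_zero] at h2
    exact h2 rfl
  rw [eval_fixL] at h4
  refine ⟨_, elim_mem hw' (Set.mem_univ v'), ?_, h4⟩
  have h5 := ncl_elim_special hR.toRel w' hv'
  rw [dim_prod hW.irred isVar_univ.irred, dim_univ, Fintype.card_sum]
  omega

/-! ### Change of the index set -/

section Reindex

variable [Fintype ι] [Fintype κ] (e : κ ≃ ι) {X : Set (ι → ℂ)}

theorem img_img : img e.symm (img e X) = X := by
  ext x
  constructor
  · rintro ⟨_, ⟨y, hy, rfl⟩, rfl⟩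
    simpa using hy
  · intro hx
    exact ⟨_, ⟨x, hx, rfl⟩, by funext i; simp⟩

theorem isVar_img (hX : IsVar X) : IsVar (img e X) := by
  refine ⟨irred_img hX.irred, fun y hy => ?_⟩
  have h1 : (fun i => y (e.symm i)) ∈ X := by
    apply hX.closed
    intro f hf
    have h2 := hy (rename e.symm f) (by
      rw [mem_idealOf_img, rename_rename, Equiv.self_comp_symm, rename_id]
      exact hf)
    rw [eval_rename] at h2
    exact h2
  exact ⟨_, h1, by funext i; simp⟩

theorem dim_img_equiv (hX : IsVar X) : dim (img e X) = dim X := by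
  apply le_antisymm (dim_img_le hX.irred)
  have h := dim_img_le (f := e.symm) (isVar_img e hX).irred
  rwa [img_img] at h

theorem ncl_equiv (hR : Rel R G) (x : ι → ℂ) : ncl R G (fun k => x (e k)) = ncl R G x := by
  apply le_antisymm (ncl_comp_le hR x e)
  have h := ncl_comp_le hR (fun k => x (e k)) e.symm
  simpa using h

end Reindex

end Pool.Agent.T6.H15.MZ
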