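import Pool.Agent.T6.H15.ZP.Points

/-!
# Closed irreducible subsets of affine space: points over given values of independent coordinates,
very general points
-/

set_option autoImplicit false

open MvPolynomial

namespace Pool.Agent.T6.H15.MZ

open Pool.Agent.T6.H15.ZP

/-- `X` is Zariski closed and irreducible (in particular not empty). -/
structure IsVar {ι : Type} (X : Set (ι → ℂ)) : Prop where
  irred : Irred X
  closed : ∀ x, (∀ f ∈ idealOf X, eval x f = 0) → x ∈ X

section Basic

variable {ι κ : Type}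

/-- The Zariski closure. -/
def zcl (X : Set (ι → ℂ)) : Set (ι → ℂ) := {x | ∀ f ∈ idealOf X, eval x f = 0}

theorem subset_zcl (X : Set (ι → ℂ)) : X ⊆ zcl X := fun x hx _ hf => mem_idealOf.1 hf x hx

theorem idealOf_zcl (X : Set (ι → ℂ)) : idealOf (zcl X) = idealOf X := by
  apply le_antisymm
  · exact idealOf_mono (subset_zcl X)
  · intro f hf
    rw [mem_idealOf]
    exact fun x hx => hx f hf

theorem isVar_zcl {X : Set (ι → ℂ)} (hX : Irred X) : IsVar (zcl X) := by
  refine ⟨?_, fun x hx => ?_⟩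
  · unfold Irred
    rw [idealOf_zcl]
    exact hX
  · rw [idealOf_zcl] at hx
    exact hx

theorem dim_zcl (X : Set (ι → ℂ)) : dim (zcl X) = dim X := by
  unfold dim
  rw [idealOf_zcl]

theorem IsVar.subset_of_ideal {X Y : Set (ι → ℂ)} (hY : IsVar Y) (h : idealOf Y ≤ idealOf X) :
    X ⊆ Y := fun x hx => hY.closed x fun f hf => mem_idealOf.1 (h hf) x hx

theorem IsVar.nonempty {X : Set (ι → ℂ)} (hX : IsVar X) : X.Nonempty := hX.irred.nonempty

theorem isVar_singleton (g : ι → ℂ) : IsVar ({g} : Set (ι → ℂ)) := by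
  refine ⟨irred_singleton g, fun x hx => ?_⟩
  rw [Set.mem_singleton_iff]
  funext i
  have h := hx (MvPolynomial.X i - C (g i)) (by
    rw [mem_idealOf]
    rintro y rfl
    simp)
  rw [map_sub, eval_X, eval_C, sub_eq_zero] at h
  exact h

theorem isVar_univ [Finite ι] : IsVar (Set.univ : Set (ι → ℂ)) := by
  refine ⟨?_, fun x _ => Set.mem_univ x⟩
  have h : idealOf (Set.univ : Set (ι → ℂ)) = ⊥ := by
    rw [Submodule.eq_bot_iff]
    intro p hp
    rw [mem_idealOf] at hp
    apply MvPolynomial.funext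
    intro x
    rw [map_zero]
    exact hp x (Set.mem_univ x)
  unfold Irred
  rw [h]
  exact Ideal.isPrime_bot

theorem dim_univ [Fintype ι] : dim (Set.univ : Set (ι → ℂ)) = Fintype.card ι := by
  apply le_antisymm
  · obtain ⟨s, -, hc⟩ := exists_indep (isVar_univ (ι := ι)).irred
    rw [← hc]
    exact Finset.card_le_univ s
  · have h : Indep (Set.univ : Set (ι → ℂ)) (fun i : ι => i) := by
      intro p hp
      apply MvPolynomial.funext
      intro x
      rw [map_zero]
      exact hp x (Set.mem_univ x)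
    exact h.card_le isVar_univ.irred

theorem IsVar.prod {W : Set (ι → ℂ)} {V : Set (κ → ℂ)} (hW : IsVar W) (hV : IsVar V) :
    IsVar (prodSet W V) := by
  refine ⟨hW.irred.prod hV.irred, fun x hx => ⟨?_, ?_⟩⟩
  · apply hW.closed
    intro f hf
    have h := hx (rename Sum.inl f) (by
      rw [mem_ideal_prod]
      intro w hw v _
      rw [eval_rename]
      exact mem_idealOf.1 hf w hw)
    rw [eval_rename] at h
    exact h
  · apply hV.closed
    intro f hf
    have h := hx (rename Sum.inr f) (by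
      rw [mem_ideal_prod]
      intro w _ v hv
      rw [eval_rename]
      exact mem_idealOf.1 hf v hv)
    rw [eval_rename] at h
    exact h

/-- The image under a map of coordinates. -/
def img (f : κ → ι) (X : Set (ι → ℂ)) : Set (κ → ℂ) := (fun x k => x (f k)) '' X

theorem mem_idealOf_img {f : κ → ι} {X : Set (ι → ℂ)} {p : MvPolynomial κ ℂ} :
    p ∈ idealOf (img f X) ↔ rename f p ∈ idealOf X := by
  rw [mem_idealOf, mem_idealOf]
  constructor
  · intro h x hx
    rw [eval_rename]
    exact h _ ⟨x, hx, rfl⟩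
  · rintro h _ ⟨x, hx, rfl⟩
    have := h x hx
    rw [eval_rename] at this
    exact this

theorem irred_img {f : κ → ι} {X : Set (ι → ℂ)} (hX : Irred X) : Irred (img f X) := by
  rw [irred_iff] at hX ⊢
  refine ⟨hX.1.image _, fun p q hp hq hpq => ?_⟩
  rw [mem_idealOf_img] at hp hq hpq
  rw [map_mul] at hpq
  exact hX.2 _ _ hp hq hpq

theorem Indep.img {σ : Type} {f : κ → ι} {X : Set (ι → ℂ)} {g : σ → κ}
    (h : Indep (MZ.img f X) g) : Indep X (fun i => f (g i)) := by
  intro p hp
  apply h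
  rintro _ ⟨x, hx, rfl⟩
  exact hp x hx

theorem Indep.img' {σ : Type} {f : κ → ι} {X : Set (ι → ℂ)} {g : σ → κ}
    (h : Indep X (fun i => f (g i))) : Indep (MZ.img f X) g := by
  intro p hp
  apply h
  intro x hx
  exact hp _ ⟨x, hx, rfl⟩

theorem Indep.comp {σ τ : Type} {X : Set (ι → ℂ)} {g : σ → ι} (h : Indep X g) {f : τ → σ}
    (hf : Function.Injective f) : Indep X (fun i => g (f i)) := by
  intro p hp
  apply rename_injective _ hf
  rw [map_zero]
  apply h
  intro x hx
  rw [eval_rename]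
  exact hp x hx

theorem dim_img_le [Finite ι] [Finite κ] {f : κ → ι} {X : Set (ι → ℂ)} (hX : Irred X) :
    dim (img f X) ≤ dim X := by
  obtain ⟨s, hs, hc⟩ := exists_indep (irred_img (f := f) hX)
  have h := (Indep.img hs).card_le hX
  rw [← hc]
  simpa using h

end Basic

section Lift

variable {ι : Type} [Fintype ι] {X : Set (ι → ℂ)}

theorem exists_generic' (hX : Irred X) :
    ∃ (Ω : Type) (_ : Field Ω) (_ : Algebra ℂ Ω) (ev : MvPolynomial ι ℂ →ₐ[ℂ] Ω),
      (∀ f, ev f = 0 ↔ f ∈ idealOf X) ∧ Algebra.trdeg ℂ Ω = (dim X : Cardinal) := by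
  have : (idealOf X).IsPrime := hX
  let B := MvPolynomial ι ℂ ⧸ idealOf X
  let Ω := FractionRing B
  let ev : MvPolynomial ι ℂ →ₐ[ℂ] Ω :=
    (IsScalarTower.toAlgHom ℂ B Ω).comp (Ideal.Quotient.mkₐ ℂ (idealOf X))
  have hev : ∀ f, ev f = 0 ↔ f ∈ idealOf X := by
    intro f
    change algebraMap B Ω (Ideal.Quotient.mk (idealOf X) f) = 0 ↔ _
    rw [← Ideal.Quotient.eq_zero_iff_mem]
    exact map_eq_zero_iff _ (IsFractionRing.injective B Ω)
  refine ⟨Ω, inferInstance, inferInstance, ev, hev, ?_⟩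
  have h1 : Algebra.trdeg ℂ B + Algebra.trdeg B Ω = Algebra.trdeg ℂ Ω := trdeg_add_eq ℂ B (A := Ω)
  have h2 : Algebra.trdeg B Ω = 0 := by
    have : Algebra.IsAlgebraic B Ω := IsLocalization.isAlgebraic Ω (nonZeroDivisors B)
    exact trdeg_eq_zero
  rw [← h1, h2, add_zero]
  exact trdeg_eq_dim hX

theorem indep_generic {Ω : Type} [Field Ω] [Algebra ℂ Ω] {ev : MvPolynomial ι ℂ →ₐ[ℂ] Ω}
    (hev : ∀ f, ev f = 0 ↔ f ∈ idealOf X) {s : Finset ι} (hs : Indep X (fun i : s => (i : ι))) :
    AlgebraicIndependent ℂ (fun i : s => ev (MvPolynomial.X (i : ι))) := by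
  have hevz : ∀ p, ev p = aeval (fun i => ev (MvPolynomial.X i)) p := by
    intro p
    have h1 : ev = aeval (fun i => ev (MvPolynomial.X i)) := by
      ext i
      simp
    exact DFunLike.congr_fun h1 p
  rw [algebraicIndependent_iff]
  intro p hp
  apply hs
  intro x hx
  have h1 : ev (rename (fun i : s => (i : ι)) p) = 0 := by
    rw [hevz, aeval_rename]
    exact hp
  have h2 := mem_idealOf.1 ((hev _).1 h1) x hx
  rw [eval_rename] at h2
  exact h2

/-- Points over given values of the coordinates in a transcendence basis. -/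
theorem exists_lift (hX : IsVar X) {s : Finset ι} (hs : Indep X (fun i : s => (i : ι)))
    (hsc : s.card = dim X) : ∃ g : MvPolynomial s ℂ, g ≠ 0 ∧ ∀ ζ : s → ℂ, eval ζ g ≠ 0 →
      ∃ x ∈ X, ∀ i : s, x i = ζ i := by
  classical
  obtain ⟨Ω, _, _, ev, hev, htr⟩ := exists_generic' hX.irred
  set z : ι → Ω := fun i => ev (MvPolynomial.X i) with hz
  have hevz : ∀ p, ev p = aeval z p := by
    intro p
    have h1 : ev = aeval z := by
      ext i
      simp [hz]
    rw [h1]
  have hy : AlgebraicIndependent ℂ (fun i : s => z i) := indep_generic hev hs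
  have hbasis : IsTranscendenceBasis ℂ (fun i : s => z i) := by
    apply hy.isTranscendenceBasis_of_trdeg_le_of_finite
    rw [htr, ← hsc, Cardinal.mk_fintype, Fintype.card_coe]
  have halg := hbasis.isAlgebraic
  obtain ⟨g, hg0, hg⟩ := exists_specialization (fun i : s => z i) hy
    (Finset.univ.image z) (fun c _ => halg.isAlgebraic c)
  refine ⟨g, hg0, fun ζ hζ => ?_⟩
  obtain ⟨C, ψ, hC, hψ⟩ := hg ζ hζ
  have hzC : ∀ i, z i ∈ C := fun i => hC _ (Finset.mem_image_of_mem z (Finset.mem_univ i))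
  have hpC : ∀ p, ev p ∈ C := by
    intro p
    rw [hevz]
    induction p using MvPolynomial.induction_on with
    | C a =>
      rw [algHom_C]
      exact C.algebraMap_mem a
    | add p q hp hq => rw [map_add]; exact C.add_mem hp hq
    | mul_X p i hp => rw [map_mul, aeval_X]; exact C.mul_mem hp (hzC i)
  set x : ι → ℂ := fun i => ψ ⟨z i, hzC i⟩ with hx
  have hψp : ∀ p, ψ ⟨ev p, hpC p⟩ = eval x p := by
    intro p
    let E : MvPolynomial ι ℂ →ₐ[ℂ] C := ev.codRestrict C hpC
    have h1 : ψ.comp E = aeval x := by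
      ext i
      simp only [AlgHom.comp_apply, aeval_X]
      rfl
    rw [← aeval_eq_eval]
    exact DFunLike.congr_fun h1 p
  refine ⟨x, hX.closed x fun p hp => ?_, fun i => ?_⟩
  · rw [← hψp]
    have h4 : (⟨ev p, hpC p⟩ : C) = 0 := Subtype.ext ((hev p).2 hp)
    rw [h4, map_zero]
  · obtain ⟨h4, h5⟩ := hψ i
    exact h5

/-- A polynomial which does not vanish on `X` divides a nonzero polynomial in the coordinates of a
transcendence basis. -/
theorem exists_dvd (hX : Irred X) {s : Finset ι} (hs : Indep X (fun i : s => (i : ι)))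
    (hsc : s.card = dim X) {f : MvPolynomial ι ℂ} (hf : f ∉ idealOf X) :
    ∃ p : MvPolynomial s ℂ, p ≠ 0 ∧ ∀ x ∈ X, eval x f = 0 → eval (fun i : s => x i) p = 0 := by
  classical
  have : (idealOf X).IsPrime := hX
  set B := MvPolynomial ι ℂ ⧸ idealOf X with hB
  set z : ι → B := fun i => Ideal.Quotient.mk (idealOf X) (MvPolynomial.X i) with hz
  have hy : AlgebraicIndependent ℂ (fun i : s => z i) := (indep_iff X _).1 hs
  have hbasis : IsTranscendenceBasis ℂ (fun i : s => z i) := by
    apply hy.isTranscendenceBasis_of_trdeg_le_of_finite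
    rw [trdeg_eq_dim hX, ← hsc, Cardinal.mk_fintype, Fintype.card_coe]
  have halg := hbasis.isAlgebraic
  have hf0 : (Ideal.Quotient.mk (idealOf X) f : B) ≠ 0 := by
    rwa [Ne, Ideal.Quotient.eq_zero_iff_mem]
  obtain ⟨r, hr0, q, hq⟩ := (halg.isAlgebraic (Ideal.Quotient.mk (idealOf X) f)).exists_nonzero_dvd
    (mem_nonZeroDivisors_of_ne_zero hf0)
  obtain ⟨r', hr'⟩ := r
  have hr1 := hr'
  rw [Algebra.adjoin_range_eq_range_aeval] at hr1
  obtain ⟨p, hp⟩ := hr1
  have hp1 : aeval (fun i : s => z i) p = r' := hp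
  obtain ⟨q', rfl⟩ := Ideal.Quotient.mk_surjective q
  refine ⟨p, ?_, fun x hx hfx => ?_⟩
  · rintro rfl
    apply hr0
    apply Subtype.ext
    show r' = 0
    rw [← hp1, map_zero]
  · have h1 : rename (fun i : s => (i : ι)) p - f * q' ∈ idealOf X := by
      rw [← Ideal.Quotient.eq_zero_iff_mem, map_sub, sub_eq_zero]
      have h2 : (Ideal.Quotient.mk (idealOf X)) (rename (fun i : s => (i : ι)) p) =
          aeval (fun i : s => z i) p := (aeval_mk X _ p).symm
      rw [h2, hp1, map_mul]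
      exact hq
    have h2 := mem_idealOf.1 h1 x hx
    rw [map_sub, map_mul, hfx, zero_mul, sub_zero, eval_rename] at h2
    exact h2

end Lift

/-- Countably many nonzero polynomials do not vanish at a common point. -/
theorem exists_nonzero_countable (n : ℕ) (F : Set (MvPolynomial (Fin n) ℂ)) (hc : F.Countable)
    (h0 : ∀ f ∈ F, f ≠ 0) : ∃ x : Fin n → ℂ, ∀ f ∈ F, eval x f ≠ 0 := by
  classical
  induction n with
  | zero =>
    refine ⟨fun i => i.elim0, fun f hf h => h0 f hf ?_⟩
    apply MvPolynomial.funext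
    intro x
    rw [map_zero, ← h]
    congr 1
    exact congrArg _ (Subsingleton.elim _ _)
  | succ n ih =>
    obtain ⟨y, hy⟩ := ih ((fun f => (finSuccEquiv ℂ n f).leadingCoeff) '' F) (hc.image _) (by
      rintro _ ⟨f, hf, rfl⟩ h
      rw [Polynomial.leadingCoeff_eq_zero] at h
      exact h0 f hf ((map_eq_zero_iff _ (finSuccEquiv ℂ n).injective).1 h))
    have h1 : (⋃ f ∈ F, {t : ℂ | ((finSuccEquiv ℂ n f).map (eval y)).eval t = 0}).Countable := by
      refine Set.Countable.biUnion hc fun f hf => Set.Finite.countable ?_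
      have h2 : (finSuccEquiv ℂ n f).map (eval y) ≠ 0 := by
        intro h3
        apply hy _ ⟨f, hf, rfl⟩
        have h4 := congrArg (fun p => p.coeff (finSuccEquiv ℂ n f).natDegree) h3
        simp only [Polynomial.coeff_map, Polynomial.coeff_zero] at h4
        exact h4
      refine (Polynomial.rootSet_finite ((finSuccEquiv ℂ n f).map (eval y)) ℂ).subset ?_
      intro t ht
      rw [Polynomial.mem_rootSet]
      refine ⟨h2, ?_⟩
      rw [Polynomial.aeval_def, Algebra.algebraMap_self, Polynomial.eval₂_id]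
      exact ht
    obtain ⟨t, ht⟩ : ∃ t : ℂ, t ∉ ⋃ f ∈ F, {t : ℂ | ((finSuccEquiv ℂ n f).map (eval y)).eval t = 0} := by
      by_contra hcon
      push Not at hcon
      exact not_countable_complex (h1.mono fun t _ => hcon t)
    refine ⟨Fin.cons t y, fun f hf h => ht ?_⟩
    simp only [Set.mem_iUnion]
    refine ⟨f, hf, ?_⟩
    rw [eval_eq_eval_mv_eval'] at h
    exact h

theorem exists_nonzero_countable' {σ : Type} [Fintype σ] (F : Set (MvPolynomial σ ℂ))
    (hc : F.Countable) (h0 : ∀ f ∈ F, f ≠ 0) : ∃ x : σ → ℂ, ∀ f ∈ F, eval x f ≠ 0 := by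
  let e := Fintype.equivFin σ
  obtain ⟨x, hx⟩ := exists_nonzero_countable _ ((fun f => rename e f) '' F) (hc.image _) (by
    rintro _ ⟨f, hf, rfl⟩ h
    exact h0 f hf ((map_eq_zero_iff _ (rename_injective _ e.injective)).1 h))
  refine ⟨fun i => x (e i), fun f hf h => hx _ ⟨f, hf, rfl⟩ ?_⟩
  show eval x (rename e f) = 0
  rw [eval_rename]
  exact h

section General

variable {ι : Type} [Fintype ι] {X : Set (ι → ℂ)}

/-- Very general points. -/
theorem exists_veryGeneral (hX : IsVar X) (F : Set (MvPolynomial ι ℂ)) (hc : F.Countable)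
    (hF : ∀ f ∈ F, f ∉ idealOf X) : ∃ x ∈ X, ∀ f ∈ F, eval x f ≠ 0 := by
  classical
  obtain ⟨s, hs, hsc⟩ := exists_indep hX.irred
  obtain ⟨g, hg0, hg⟩ := exists_lift hX hs hsc
  have h1 : ∀ f ∈ F, ∃ p : MvPolynomial s ℂ, p ≠ 0 ∧
      ∀ x ∈ X, eval x f = 0 → eval (fun i : s => x i) p = 0 :=
    fun f hf => exists_dvd hX.irred hs hsc (hF f hf)
  choose! p hp0 hp using h1
  obtain ⟨ζ, hζ⟩ := exists_nonzero_countable' (insert g (p '' F)) ((hc.image p).insert g) (by
    rintro q (rfl | ⟨f, hf, rfl⟩)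
    · exact hg0
    · exact hp0 f hf)
  obtain ⟨x, hx, hxζ⟩ := hg ζ (hζ g (Set.mem_insert _ _))
  refine ⟨x, hx, fun f hf h => hζ (p f) (Set.mem_insert_of_mem _ ⟨f, hf, rfl⟩) ?_⟩
  have h2 := hp f hf x hx h
  have h3 : (fun i : s => x i) = ζ := funext hxζ
  rw [← h3]
  exact h2

/-- Points with coordinates in an infinite set, in a transcendence basis. -/
theorem exists_point_in (hX : IsVar X) {G : Set ℂ} (hG : G.Infinite) {s : Finset ι}
    (hs : Indep X (fun i : s => (i : ι))) (hsc : s.card = dim X) {f : MvPolynomial ι ℂ}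
    (hf : f ∉ idealOf X) : ∃ x ∈ X, (∀ i ∈ s, x i ∈ G) ∧ eval x f ≠ 0 := by
  classical
  obtain ⟨g, hg0, hg⟩ := exists_lift hX hs hsc
  obtain ⟨p, hp0, hp⟩ := exists_dvd hX.irred hs hsc hf
  obtain ⟨ζ, hζ, hgζ⟩ : ∃ ζ : s → ℂ, (∀ i, ζ i ∈ G) ∧ eval ζ (g * p) ≠ 0 := by
    by_contra hcon
    push Not at hcon
    apply mul_ne_zero hg0 hp0
    refine MvPolynomial.funext_set (p := g * p) (q := 0) (fun _ : s => G) (fun _ => hG) ?_
    intro x hx
    rw [map_zero]
    exact hcon x fun i => hx i (Set.mem_univ i)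
  rw [map_mul] at hgζ
  obtain ⟨x, hx, hxζ⟩ := hg ζ (left_ne_zero_of_mul hgζ)
  refine ⟨x, hx, fun i hi => ?_, fun h => right_ne_zero_of_mul hgζ ?_⟩
  · rw [hxζ ⟨i, hi⟩]
    exact hζ _
  · have h2 := hp x hx h
    have h3 : (fun i : s => x i) = ζ := funext hxζ
    rw [← h3]
    exact h2

/-- If all coordinates are algebraic over those in `T` then there is a transcendence basis in `T`. -/
theorem exists_indep_in (hX : Irred X) (T : Set ι)
    (hT : ∀ i, IsAlgebraic (Algebra.adjoin ℂ ((fun i => (Ideal.Quotient.mk (idealOf X)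
      (MvPolynomial.X i) : MvPolynomial ι ℂ ⧸ idealOf X)) '' T))
      (Ideal.Quotient.mk (idealOf X) (MvPolynomial.X i) : MvPolynomial ι ℂ ⧸ idealOf X)) :
    ∃ s : Finset ι, (∀ i ∈ s, i ∈ T) ∧ Indep X (fun i : s => (i : ι)) ∧ s.card = dim X := by
  classical
  have : (idealOf X).IsPrime := hX
  set B := MvPolynomial ι ℂ ⧸ idealOf X with hB
  set z : ι → B := fun i => Ideal.Quotient.mk (idealOf X) (MvPolynomial.X i) with hz
  have hadj : Algebra.adjoin ℂ (Set.range z) = ⊤ := by
    rw [Algebra.eq_top_iff]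
    intro b
    obtain ⟨f, rfl⟩ := Ideal.Quotient.mk_surjective b
    rw [Algebra.adjoin_range_eq_range_aeval]
    refine ⟨f, ?_⟩
    have h := aeval_mk X (id : ι → ι) f
    rw [rename_id] at h
    exact h
  have halg : Algebra.IsAlgebraic (Algebra.adjoin ℂ (z '' T)) B := by
    refine ⟨fun b => ?_⟩
    have hb : b ∈ Algebra.adjoin ℂ (Set.range z) := by rw [hadj]; trivial
    have h1 : IsAlgebraic (Algebra.adjoin ℂ (Set.range z)) b :=
      isAlgebraic_algebraMap (⟨b, hb⟩ : Algebra.adjoin ℂ (Set.range z))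
    refine h1.adjoin_of_forall_isAlgebraic ?_
    rintro _ ⟨⟨i, rfl⟩, -⟩
    exact hT i
  obtain ⟨t, hts, ht⟩ := exists_isTranscendenceBasis_subset (R := ℂ) (z '' T)
  have hc : ∀ e : t, ∃ j ∈ T, z j = e := fun e => hts e.2
  choose c hcT hc using hc
  have hcinj : Function.Injective c := by
    intro e e' hee
    exact Subtype.ext (by rw [← hc e, ← hc e', hee])
  have htfin : Finite t := Finite.of_injective c hcinj
  have : Fintype t := Fintype.ofFinite t
  refine ⟨Finset.univ.image c, ?_, ?_, ?_⟩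
  · intro i hi
    obtain ⟨e, -, rfl⟩ := Finset.mem_image.1 hi
    exact hcT e
  · rw [indep_iff]
    have hTt : ∀ j : (Finset.univ.image c : Finset ι), ∃ e : t, c e = j := by
      rintro ⟨j, hj⟩
      obtain ⟨e, -, he⟩ := Finset.mem_image.1 hj
      exact ⟨e, he⟩
    choose φ hφ using hTt
    have hφinj : Function.Injective φ := by
      intro j j' hjj
      exact Subtype.ext (by rw [← hφ j, ← hφ j', hjj])
    have hzφ : (fun j : (Finset.univ.image c : Finset ι) => z j) = (fun e : t => (e : B)) ∘ φ := by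
      funext j
      simp only [Function.comp_apply]
      rw [← hc (φ j), hφ j]
    show AlgebraicIndependent ℂ (fun j : (Finset.univ.image c : Finset ι) => z j)
    rw [hzφ]
    exact ht.1.comp φ hφinj
  · rw [Finset.card_image_of_injective _ hcinj, Finset.card_univ]
    have h1 := ht.cardinalMk_eq_trdeg
    rw [trdeg_eq_dim hX, Cardinal.mk_fintype] at h1
    exact_mod_cast h1

end General

end Pool.Agent.T6.H15.MZ
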